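import Mathlib
import Pool.Agent.H89.EdgeBasic
import Pool.Agent.H89.EdgeOrd
import Pool.Agent.H42.HW.Twist

/-! Euler products twisted by families of Rankin-Selberg type: the logarithm as a sum over prime
powers. -/

open Complex Filter Topology

namespace Pool.Agent.H41.ATW

open Pool.Agent.H89.EdgeBasic Pool.Agent.H89.EdgeOrd

/-- The sum of the `n`-th powers of the members of a multiset. -/
noncomputable def ps (B : Multiset ℂ) (n : ℕ) : ℂ := (B.map fun β => β ^ n).sum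

/-- The products of a member of `B` and the conjugate of a member of `C`. -/
noncomputable def dp (B C : Multiset ℂ) : Multiset ℂ :=
  (B ×ˢ C).map fun c => c.1 * (starRingEnd ℂ) c.2

lemma ps_zero (n : ℕ) : ps 0 n = 0 := by simp [ps]

lemma ps_cons (a : ℂ) (B : Multiset ℂ) (n : ℕ) : ps (a ::ₘ B) n = a ^ n + ps B n := by
  simp [ps]

lemma ps_add (B C : Multiset ℂ) (n : ℕ) : ps (B + C) n = ps B n + ps C n := by
  simp [ps]

lemma ps_dp (B C : Multiset ℂ) (n : ℕ) : ps (dp B C) n = ps B n * (starRingEnd ℂ) (ps C n) := by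
  induction B using Multiset.induction_on with
  | empty => simp [dp, ps]
  | cons a B ih =>
    have h1 : dp (a ::ₘ B) C = (C.map fun c => a * (starRingEnd ℂ) c) + dp B C := by
      simp [dp, Multiset.cons_product, Multiset.map_map, Function.comp_def]
    rw [h1, ps_add, ih, ps_cons, add_mul]
    congr 1
    rw [ps, ps, Multiset.map_map, map_multiset_sum, Multiset.map_map, ← Multiset.sum_map_mul_left]
    apply congrArg
    apply Multiset.map_congr rfl
    intro c _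
    simp [mul_pow]

/-- The prime powers: the pair `(p, k)` stands for `p ^ (k + 1)`. -/
abbrev Ix (N : ℕ) := Idx N × ℕ

/-- The weight `1 / (ν p ^ (ν (1 + η)))` of the prime power `p ^ ν`. -/
noncomputable def w {N : ℕ} (η : ℝ) (x : Ix N) : ℝ := q x.1 η ^ (x.2 + 1) / ((x.2 : ℝ) + 1)

lemma w_pos {N : ℕ} (η : ℝ) (x : Ix N) : 0 < w η x := by
  unfold w
  have := q_pos x.1 η
  positivity

/-- the reciprocal roots, normalised -/
noncomputable def rt (P : Polynomial ℂ) (c : ℂ) : Multiset ℂ := P.roots.map fun r => r⁻¹ * c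

/-- the normalised power sums of the reciprocal roots -/
noncomputable def aa {N : ℕ} (P : ℕ → Polynomial ℂ) (i : ℕ) (x : Ix N) : ℂ :=
  ps (rt (P x.1) ((x.1 : ℂ) ^ (-((i : ℂ) / 2)))) (x.2 + 1)

lemma aa_norm_le {N i b : ℕ} {P : ℕ → Polynomial ℂ} (H : Hyp N i b P) (x : Ix N) :
    ‖aa P i x‖ ≤ b := by
  unfold aa ps rt
  rw [Multiset.map_map]
  refine (norm_multiset_sum_le _).trans ?_
  rw [Multiset.map_map]
  have h2 : ∀ y ∈ ((P x.1).roots.map ((fun z : ℂ => ‖z‖) ∘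
      ((fun β : ℂ => β ^ (x.2 + 1)) ∘ fun r => r⁻¹ * (x.1 : ℂ) ^ (-((i : ℂ) / 2))))),
      y ≤ 1 := by
    intro y hy
    rw [Multiset.mem_map] at hy
    obtain ⟨r, hr, rfl⟩ := hy
    simp only [Function.comp]
    rw [norm_pow, norm_mul, Pool.Agent.H89.EdgeBasic.norm_half]
    have h3 := root_inv_le H x.1 hr
    have h4 : ‖r⁻¹‖ * (x.1 : ℝ) ^ (-((i : ℝ) / 2)) ≤ 1 := by
      calc ‖r⁻¹‖ * (x.1 : ℝ) ^ (-((i : ℝ) / 2))
          ≤ (x.1 : ℝ) ^ ((i : ℝ) / 2) * (x.1 : ℝ) ^ (-((i : ℝ) / 2)) := by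
            gcongr
        _ = 1 := by
            rw [← Real.rpow_add (idx_pos x.1)]
            simp
    exact pow_le_one₀ (by positivity) h4
  refine (Multiset.sum_le_card_nsmul _ _ h2).trans ?_
  rw [Multiset.card_map, nsmul_eq_mul, mul_one]
  exact_mod_cast (Polynomial.card_roots' (P x.1)).trans (H.hdeg _ x.1.2.1 x.1.2.2)

/-- A family of Rankin-Selberg type away from the primes dividing `N`: `B j p` is the multiset of
the Satake parameters of the member `j` at the prime `p`. -/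
structure RS (N : ℕ) {J : Type} (B : J → ℕ → Multiset ℂ) : Prop where
  small : ∀ (j : J) (p : Idx N), ∀ β ∈ B j p, ‖β‖ ^ 2 < (p : ℝ)
  summ : ∀ (j : J) (η : ℝ), 0 < η →
    Summable fun x : Ix N => w η x * ‖ps (B j x.1) (x.2 + 1)‖ ^ 2
  diag : ∀ j : J, ∃ C : ℝ, ∀ η : ℝ, 0 < η → η ≤ 1 →
    ∑' x : Ix N, w η x * ‖ps (B j x.1) (x.2 + 1)‖ ^ 2 ≤ Real.log (1 / η) + C
  cross : ∀ (j k : J) (t : ℝ), (j ≠ k ∨ t ≠ 0) → ∃ C : ℝ, ∀ η : ℝ, 0 < η → η ≤ 1 →
    |(∑' x : Ix N, (w η x : ℂ) * (ps (B j x.1) (x.2 + 1) *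
      (starRingEnd ℂ) (ps (B k x.1) (x.2 + 1)) * ch x.1 t ^ (x.2 + 1))).re| ≤ C

variable {N : ℕ} {J : Type} {B : J → ℕ → Multiset ℂ}

/-- the vector of a pair (member of the family, real number) -/
noncomputable def gv (B : J → ℕ → Multiset ℂ) (y : J × ℝ) (x : Ix N) : ℂ :=
  ps (B y.1 x.1) (x.2 + 1) * ch x.1 y.2 ^ (x.2 + 1)

lemma norm_gv (y : J × ℝ) (x : Ix N) : ‖gv B y x‖ = ‖ps (B y.1 x.1) (x.2 + 1)‖ := by
  rw [gv, norm_mul, norm_pow, norm_ch, one_pow, mul_one]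

lemma gv_mul (y z : J × ℝ) (x : Ix N) : gv B y x * (starRingEnd ℂ) (gv B z x) =
    ps (B y.1 x.1) (x.2 + 1) * (starRingEnd ℂ) (ps (B z.1 x.1) (x.2 + 1)) *
      ch x.1 (y.2 - z.2) ^ (x.2 + 1) := by
  rw [gv, gv, map_mul, map_pow, conj_ch, sub_eq_add_neg, ch_add, mul_pow]
  ring

lemma summable_prod {η : ℝ} {f g : Ix N → ℂ}
    (hf : Summable fun x : Ix N => w η x * ‖f x‖ ^ 2)
    (hg : Summable fun x : Ix N => w η x * ‖g x‖ ^ 2) :
    Summable fun x : Ix N => (w η x : ℂ) * (f x * g x) := by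
  refine Summable.of_norm_bounded ((hf.add hg).mul_left (1 / 2)) (fun x => ?_)
  rw [norm_mul, norm_mul, Complex.norm_real, Real.norm_of_nonneg (w_pos η x).le]
  have h1 := (w_pos η x).le
  have h2 : ‖f x‖ * ‖g x‖ ≤ 1 / 2 * (‖f x‖ ^ 2 + ‖g x‖ ^ 2) := by
    nlinarith [sq_nonneg (‖f x‖ - ‖g x‖)]
  calc w η x * (‖f x‖ * ‖g x‖) ≤ w η x * (1 / 2 * (‖f x‖ ^ 2 + ‖g x‖ ^ 2)) := by gcongr
    _ = _ := by ring

/-- Quadratic form bound for an almost orthonormal family. -/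
lemma quadW {ι : Type*} [DecidableEq ι] (A : Finset ι) (g : ι → Ix N → ℂ)
    (hs : ∀ j η, 0 < η → Summable fun x : Ix N => w η x * ‖g j x‖ ^ 2)
    (hcross : ∀ j k, ∃ C : ℝ, 0 ≤ C ∧ ∀ η : ℝ, 0 < η → η ≤ 1 →
      |(∑' x : Ix N, (w η x : ℂ) * (g j x * (starRingEnd ℂ) (g k x))).re| ≤
        (if j = k then Real.log (1/η) else 0) + C) :
    ∃ C : ℝ, 0 ≤ C ∧ ∀ η : ℝ, 0 < η → η ≤ 1 → ∀ v : ι → ℝ,
      Summable (fun x : Ix N => w η x * ‖∑ j ∈ A, (v j : ℂ) * g j x‖ ^ 2) ∧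
      ∑' x : Ix N, w η x * ‖∑ j ∈ A, (v j : ℂ) * g j x‖ ^ 2
        ≤ (Real.log (1/η) + C) * ∑ j ∈ A, v j ^ 2 := by
  choose C hC0 hC using hcross
  refine ⟨∑ j ∈ A, ∑ k ∈ A, C j k,
    Finset.sum_nonneg fun s _ => Finset.sum_nonneg fun s' _ => hC0 _ _, ?_⟩
  intro η h0 h1 v
  have hexp : ∀ x : Ix N, w η x * ‖∑ j ∈ A, (v j : ℂ) * g j x‖ ^ 2
      = ∑ j ∈ A, ∑ k ∈ A, v j * v k * ((w η x : ℂ) * (g j x * (starRingEnd ℂ) (g k x))).re := by
    intro x
    have e1 : (((‖∑ j ∈ A, (v j : ℂ) * g j x‖ ^ 2 : ℝ)) : ℂ) =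
        ∑ j ∈ A, ∑ k ∈ A, ((v j * v k : ℝ) : ℂ) * (g j x * (starRingEnd ℂ) (g k x)) := by
      rw [Complex.ofReal_pow, ← Complex.mul_conj', map_sum, Finset.sum_mul_sum]
      apply Finset.sum_congr rfl
      intro s _
      apply Finset.sum_congr rfl
      intro s' _
      rw [map_mul, Complex.conj_ofReal]
      push_cast
      ring
    have e2 : ((w η x * ‖∑ j ∈ A, (v j : ℂ) * g j x‖ ^ 2 : ℝ) : ℂ) =
        ∑ j ∈ A, ∑ k ∈ A, ((v j * v k : ℝ) : ℂ) *
          ((w η x : ℂ) * (g j x * (starRingEnd ℂ) (g k x))) := by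
      rw [Complex.ofReal_mul, e1, Finset.mul_sum]
      apply Finset.sum_congr rfl
      intro s _
      rw [Finset.mul_sum]
      apply Finset.sum_congr rfl
      intro s' _
      ring
    have e3 := congrArg Complex.re e2
    rw [Complex.ofReal_re] at e3
    rw [e3, Complex.re_sum]
    apply Finset.sum_congr rfl
    intro s _
    rw [Complex.re_sum]
    apply Finset.sum_congr rfl
    intro s' _
    rw [Complex.re_ofReal_mul]
  have hsummable : ∀ j k, Summable (fun x : Ix N =>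
      (w η x : ℂ) * (g j x * (starRingEnd ℂ) (g k x))) := by
    intro j k
    refine summable_prod (hs j η h0) ?_
    simpa only [RCLike.norm_conj] using hs k η h0
  have hsum_re : ∀ j k, Summable (fun x : Ix N =>
      ((w η x : ℂ) * (g j x * (starRingEnd ℂ) (g k x))).re) := by
    intro j k
    exact (Complex.hasSum_re (hsummable j k).hasSum).summable
  have hs1 : ∀ j ∈ A, ∀ k ∈ A, Summable (fun x : Ix N =>
      v j * v k * ((w η x : ℂ) * (g j x * (starRingEnd ℂ) (g k x))).re) :=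
    fun s _ s' _ => (hsum_re _ _).mul_left _
  have hs2 : ∀ j ∈ A, Summable (fun x : Ix N =>
      ∑ k ∈ A, v j * v k * ((w η x : ℂ) * (g j x * (starRingEnd ℂ) (g k x))).re) :=
    fun s hs => summable_sum (fun s' hs' => hs1 s hs s' hs')
  constructor
  · simp_rw [hexp]
    exact summable_sum hs2
  · simp_rw [hexp]
    rw [Summable.tsum_finsetSum hs2]
    have hvv : ∀ j ∈ A, ∀ k ∈ A, |v j * v k| ≤ ∑ t ∈ A, v t ^ 2 := by
      intro s hs s' hs'
      have h1 : v s ^ 2 ≤ ∑ t ∈ A, v t ^ 2 := Finset.single_le_sum (fun t _ => sq_nonneg (v t)) hs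
      have h2 : v s' ^ 2 ≤ ∑ t ∈ A, v t ^ 2 :=
        Finset.single_le_sum (fun t _ => sq_nonneg (v t)) hs'
      rw [abs_le]
      constructor <;> nlinarith [sq_nonneg (v s - v s'), sq_nonneg (v s + v s')]
    have e4 : ∀ j ∈ A, ∑' x : Ix N, ∑ k ∈ A,
        v j * v k * ((w η x : ℂ) * (g j x * (starRingEnd ℂ) (g k x))).re
        ≤ ∑ k ∈ A, (|v j * v k| * (if j = k then Real.log (1/η) else 0) +
          C j k * ∑ t ∈ A, v t ^ 2) := by
      intro s hs
      rw [Summable.tsum_finsetSum (hs1 s hs)]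
      apply Finset.sum_le_sum
      intro s' hs'
      rw [tsum_mul_left, ← Complex.re_tsum (hsummable _ _)]
      have h2 := hC s s' η h0 h1
      refine (le_abs_self _).trans ?_
      rw [abs_mul]
      calc |v s * v s'| * |(∑' x : Ix N, (w η x : ℂ) * (g s x * (starRingEnd ℂ) (g s' x))).re|
          ≤ |v s * v s'| * ((if s = s' then Real.log (1/η) else 0) + C s s') :=
            mul_le_mul_of_nonneg_left h2 (abs_nonneg _)
        _ = |v s * v s'| * (if s = s' then Real.log (1/η) else 0) + C s s' * |v s * v s'| := by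
            ring
        _ ≤ _ := by
            have := mul_le_mul_of_nonneg_left (hvv s hs s' hs') (hC0 s s')
            linarith
    refine (Finset.sum_le_sum e4).trans ?_
    have e5 : ∀ s ∈ A, ∑ s' ∈ A, (|v s * v s'| * (if s = s' then Real.log (1/η) else 0) +
          C s s' * ∑ t ∈ A, v t ^ 2)
        = v s ^ 2 * Real.log (1/η) + (∑ s' ∈ A, C s s') * ∑ t ∈ A, v t ^ 2 := by
      intro s hs
      rw [Finset.sum_add_distrib, Finset.sum_mul]
      congr 1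
      rw [Finset.sum_eq_single s]
      · rw [if_pos rfl, ← sq, abs_of_nonneg (sq_nonneg _)]
      · intro t _ ht
        rw [if_neg (Ne.symm ht), mul_zero]
      · intro h
        exact absurd hs h
    rw [Finset.sum_congr rfl e5, Finset.sum_add_distrib, ← Finset.sum_mul, ← Finset.sum_mul]
    apply le_of_eq
    ring

/-- Duality: Cauchy-Schwarz over the prime powers. -/
lemma dualW (a G : Ix N → ℂ) (η : ℝ)
    (ha : Summable (fun x : Ix N => w η x * ‖a x‖ ^ 2))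
    (hG : Summable (fun x : Ix N => w η x * ‖G x‖ ^ 2)) :
    |(∑' x : Ix N, (w η x : ℂ) * (a x * G x)).re| ≤
      Real.sqrt (∑' x : Ix N, w η x * ‖a x‖ ^ 2) * Real.sqrt (∑' x : Ix N, w η x * ‖G x‖ ^ 2) := by
  set F : Ix N → ℝ := fun x => Real.sqrt (w η x) * ‖a x‖ with hF
  set K : Ix N → ℝ := fun x => Real.sqrt (w η x) * ‖G x‖ with hK
  have hF2 : ∀ x, F x ^ 2 = w η x * ‖a x‖ ^ 2 := by
    intro x
    simp only [hF]
    rw [mul_pow, Real.sq_sqrt (w_pos η x).le]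
  have hK2 : ∀ x, K x ^ 2 = w η x * ‖G x‖ ^ 2 := by
    intro x
    simp only [hK]
    rw [mul_pow, Real.sq_sqrt (w_pos η x).le]
  have hF0 : ∀ x, 0 ≤ F x := fun x => mul_nonneg (Real.sqrt_nonneg _) (norm_nonneg _)
  have hK0 : ∀ x, 0 ≤ K x := fun x => mul_nonneg (Real.sqrt_nonneg _) (norm_nonneg _)
  have hFs : Summable fun x => F x ^ 2 := by simpa only [hF2] using ha
  have hKs : Summable fun x => K x ^ 2 := by simpa only [hK2] using hG
  have h1 := tsum_mul_le_sqrt hF0 hK0 hFs hKs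
  have h2 := summable_mul_of_sq hF0 hK0 hFs hKs
  simp only [hF2, hK2] at h1
  refine (Complex.abs_re_le_norm _).trans (le_trans ?_ h1)
  refine tsum_of_norm_bounded h2.hasSum (fun x => ?_)
  rw [norm_mul, norm_mul, Complex.norm_real, Real.norm_of_nonneg (w_pos η x).le]
  simp only [hF, hK]
  have h3 := Real.mul_self_sqrt (w_pos η x).le
  calc w η x * (‖a x‖ * ‖G x‖) = (Real.sqrt (w η x) * Real.sqrt (w η x)) * (‖a x‖ * ‖G x‖) := by
        rw [h3]
    _ ≤ _ := by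
        apply le_of_eq
        ring

/-- The bilinear inequality. -/
lemma bilW {i b : ℕ} {P : ℕ → Polynomial ℂ} (H : Hyp N i b P) (hB : RS N B)
    (S S' : Finset (J × ℝ)) :
    ∃ C : ℝ, 0 ≤ C ∧ ∀ η : ℝ, 0 < η → η ≤ 1 → ∀ v u : J × ℝ → ℝ,
      |∑ y ∈ S, ∑ z ∈ S', v y * u z *
        (∑' x : Ix N, (w η x : ℂ) * (aa P i x * (gv B y x * (starRingEnd ℂ) (gv B z x)))).re| ≤
      b * (Real.log (1/η) + C) *
        (Real.sqrt (∑ y ∈ S, v y ^ 2) * Real.sqrt (∑ z ∈ S', u z ^ 2)) := by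
  classical
  have hs : ∀ (y : J × ℝ) η, 0 < η → Summable fun x : Ix N => w η x * ‖gv B y x‖ ^ 2 := by
    intro y η hη
    simp_rw [norm_gv]
    exact hB.summ y.1 η hη
  have hc : ∀ y z : J × ℝ, ∃ C : ℝ, 0 ≤ C ∧ ∀ η : ℝ, 0 < η → η ≤ 1 →
      |(∑' x : Ix N, (w η x : ℂ) * (gv B y x * (starRingEnd ℂ) (gv B z x))).re| ≤
        (if y = z then Real.log (1/η) else 0) + C := by
    intro y z
    by_cases hyz : y = z
    · subst hyz
      obtain ⟨C, hC⟩ := hB.diag y.1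
      refine ⟨max C 0, le_max_right _ _, fun η h0 h1 => ?_⟩
      rw [if_pos rfl]
      have e1 : ∀ x : Ix N, (w η x : ℂ) * (gv B y x * (starRingEnd ℂ) (gv B y x)) =
          ((w η x * ‖ps (B y.1 x.1) (x.2 + 1)‖ ^ 2 : ℝ) : ℂ) := by
        intro x
        rw [Complex.mul_conj', norm_gv]
        push_cast
        ring
      simp_rw [e1]
      rw [← Complex.ofReal_tsum, Complex.ofReal_re, abs_of_nonneg (tsum_nonneg fun x => by
        have := (w_pos η x).le
        positivity)]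
      exact (hC η h0 h1).trans (by gcongr; exact le_max_left _ _)
    · have h : y.1 ≠ z.1 ∨ y.2 - z.2 ≠ 0 := by
        by_contra hcon
        push Not at hcon
        exact hyz (Prod.ext hcon.1 (sub_eq_zero.mp hcon.2))
      obtain ⟨C, hC⟩ := hB.cross y.1 z.1 (y.2 - z.2) h
      refine ⟨max C 0, le_max_right _ _, fun η h0 h1 => ?_⟩
      rw [if_neg hyz, zero_add]
      simp_rw [gv_mul]
      exact (hC η h0 h1).trans (le_max_left _ _)
  obtain ⟨C1, hC1, hq1⟩ := quadW S (fun y => gv B y) hs hc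
  obtain ⟨C2, hC2, hq2⟩ := quadW S' (fun y => gv B y) hs hc
  refine ⟨C1 + C2, by positivity, ?_⟩
  intro η h0 h1 v u
  set nv := Real.sqrt (∑ x ∈ S, v x ^ 2) with hnv
  set nw := Real.sqrt (∑ y ∈ S', u y ^ 2) with hnw
  have hl : 0 ≤ Real.log (1/η) := by
    apply Real.log_nonneg
    rw [le_div_iff₀ h0]
    linarith
  have hnv0 : 0 ≤ nv := Real.sqrt_nonneg _
  have hnw0 : 0 ≤ nw := Real.sqrt_nonneg _
  obtain ⟨hsv, hbv⟩ := hq1 η h0 h1 v
  obtain ⟨hsw, hbw⟩ := hq2 η h0 h1 u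
  have hsa : ∀ f : Ix N → ℂ, Summable (fun x : Ix N => w η x * ‖f x‖ ^ 2) →
      Summable (fun x : Ix N => w η x * ‖aa P i x * f x‖ ^ 2) ∧
      ∑' x : Ix N, w η x * ‖aa P i x * f x‖ ^ 2 ≤ (b:ℝ) ^ 2 * ∑' x : Ix N, w η x * ‖f x‖ ^ 2 := by
    intro f hf
    have hns : ∀ x : Ix N, w η x * ‖aa P i x * f x‖ ^ 2 ≤ (b:ℝ) ^ 2 * (w η x * ‖f x‖ ^ 2) := by
      intro x
      rw [norm_mul, mul_pow]
      have h3 : ‖aa P i x‖ ^ 2 ≤ (b:ℝ) ^ 2 := pow_le_pow_left₀ (norm_nonneg _) (aa_norm_le H x) 2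
      have h4 : 0 ≤ w η x * ‖f x‖ ^ 2 := by
        have := (w_pos η x).le
        positivity
      calc w η x * (‖aa P i x‖ ^ 2 * ‖f x‖ ^ 2)
          = ‖aa P i x‖ ^ 2 * (w η x * ‖f x‖ ^ 2) := by ring
        _ ≤ _ := mul_le_mul_of_nonneg_right h3 h4
    have h5 : Summable (fun x : Ix N => w η x * ‖aa P i x * f x‖ ^ 2) :=
      Summable.of_nonneg_of_le (fun x => by have := (w_pos η x).le; positivity) hns (hf.mul_left _)
    refine ⟨h5, ?_⟩
    rw [← tsum_mul_left]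
    exact h5.tsum_le_tsum hns (hf.mul_left _)
  have hsY : ∀ y z : J × ℝ, Summable (fun x : Ix N => (w η x : ℂ) *
      (aa P i x * (gv B y x * (starRingEnd ℂ) (gv B z x)))) := by
    intro y z
    have h2 := summable_prod (hsa _ (hs y η h0)).1
      (g := fun x => (starRingEnd ℂ) (gv B z x)) (by simpa only [RCLike.norm_conj] using hs z η h0)
    refine h2.congr (fun x => ?_)
    ring
  have hmain : ∑ y ∈ S, ∑ z ∈ S', v y * u z *
        (∑' x : Ix N, (w η x : ℂ) * (aa P i x * (gv B y x * (starRingEnd ℂ) (gv B z x)))).re =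
      (∑' x : Ix N, (w η x : ℂ) * ((aa P i x * ∑ y ∈ S, (v y : ℂ) * gv B y x) *
        (starRingEnd ℂ) (∑ z ∈ S', (u z : ℂ) * gv B z x))).re := by
    have e1 : ∀ x : Ix N, (w η x : ℂ) * ((aa P i x * ∑ y ∈ S, (v y : ℂ) * gv B y x) *
        (starRingEnd ℂ) (∑ z ∈ S', (u z : ℂ) * gv B z x)) =
        ∑ y ∈ S, ∑ z ∈ S', ((v y * u z : ℝ) : ℂ) * ((w η x : ℂ) *
          (aa P i x * (gv B y x * (starRingEnd ℂ) (gv B z x)))) := by
      intro x
      rw [map_sum, mul_assoc (aa P i x), Finset.sum_mul_sum, Finset.mul_sum, Finset.mul_sum]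
      apply Finset.sum_congr rfl
      intro y _
      rw [Finset.mul_sum, Finset.mul_sum]
      apply Finset.sum_congr rfl
      intro z _
      rw [map_mul, Complex.conj_ofReal]
      push_cast
      ring
    simp_rw [e1]
    rw [Summable.tsum_finsetSum (fun x _ => summable_sum (fun y _ => (hsY x y).mul_left _)),
      Complex.re_sum]
    apply Finset.sum_congr rfl
    intro x _
    rw [Summable.tsum_finsetSum (fun y _ => (hsY x y).mul_left _), Complex.re_sum]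
    apply Finset.sum_congr rfl
    intro y _
    rw [tsum_mul_left, Complex.re_ofReal_mul]
  obtain ⟨hsa1, hsa2⟩ := hsa _ hsv
  rw [hmain]
  refine (dualW (fun x => aa P i x * ∑ y ∈ S, (v y : ℂ) * gv B y x)
    (fun x => (starRingEnd ℂ) (∑ z ∈ S', (u z : ℂ) * gv B z x)) η hsa1
    (by simpa only [RCLike.norm_conj] using hsw)).trans ?_
  simp only [RCLike.norm_conj]
  have k1 : Real.sqrt (∑' x : Ix N, w η x * ‖aa P i x * ∑ y ∈ S, (v y : ℂ) * gv B y x‖ ^ 2) ≤
      b * (Real.sqrt (Real.log (1/η) + (C1 + C2)) * nv) := by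
    have h3 : ∑' x : Ix N, w η x * ‖aa P i x * ∑ y ∈ S, (v y : ℂ) * gv B y x‖ ^ 2 ≤
        (b:ℝ) ^ 2 * ((Real.log (1/η) + (C1 + C2)) * ∑ y ∈ S, v y ^ 2) := by
      refine hsa2.trans ?_
      apply mul_le_mul_of_nonneg_left _ (by positivity)
      refine hbv.trans ?_
      apply mul_le_mul_of_nonneg_right _ (Finset.sum_nonneg fun _ _ => sq_nonneg _)
      linarith
    refine (Real.sqrt_le_sqrt h3).trans (le_of_eq ?_)
    rw [Real.sqrt_mul (by positivity), Real.sqrt_sq (Nat.cast_nonneg _), Real.sqrt_mul (by linarith)]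
  have k2 : Real.sqrt (∑' x : Ix N, w η x * ‖∑ z ∈ S', (u z : ℂ) * gv B z x‖ ^ 2) ≤
      Real.sqrt (Real.log (1/η) + (C1 + C2)) * nw := by
    rw [hnw, ← Real.sqrt_mul (by linarith)]
    apply Real.sqrt_le_sqrt
    refine hbw.trans ?_
    apply mul_le_mul_of_nonneg_right _ (Finset.sum_nonneg fun _ _ => sq_nonneg _)
    linarith
  refine (mul_le_mul k1 k2 (Real.sqrt_nonneg _) (by positivity)).trans ?_
  have k3 : Real.sqrt (Real.log (1/η) + (C1 + C2)) * Real.sqrt (Real.log (1/η) + (C1 + C2)) =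
      Real.log (1/η) + (C1 + C2) := Real.mul_self_sqrt (by linarith)
  calc b * (Real.sqrt (Real.log (1/η) + (C1 + C2)) * nv) *
      (Real.sqrt (Real.log (1/η) + (C1 + C2)) * nw)
      = b * (Real.sqrt (Real.log (1/η) + (C1 + C2)) * Real.sqrt (Real.log (1/η) + (C1 + C2))) *
        (nv * nw) := by ring
    _ ≤ _ := by rw [k3]

end Pool.Agent.H41.ATW
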