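import Pool.Agent.H41.ATW.Log

/-! The primitive Dirichlet characters form a family of Rankin-Selberg type. -/

open Complex Filter Topology

namespace Pool.Agent.H41.ATW

open Pool.Agent.H89.EdgeBasic Pool.Agent.H89.EdgeOrd Pool.H42.HW

variable {N : ℕ}

lemma q_le_inv (p : Idx N) {η : ℝ} (h : 0 < η) : q p η ≤ (p:ℝ)⁻¹ := by
  rw [q, ← Real.rpow_neg_one]
  apply Real.rpow_le_rpow_of_exponent_le
  · exact_mod_cast p.2.1.one_lt.le
  · linarith

/-- sums over prime powers and sums over primes -/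
lemma tsum_w {η : ℝ} (h : 0 < η) (z : Idx N → ℂ) (hz : ∀ p, ‖z p‖ ≤ 1) :
    Summable (fun x : Ix N => (w η x : ℂ) * z x.1 ^ (x.2 + 1)) ∧
    ‖(∑' x : Ix N, (w η x : ℂ) * z x.1 ^ (x.2 + 1)) - ∑' p : Idx N, (q p η : ℂ) * z p‖ ≤
      ∑' p : Idx N, ((p:ℝ)^2)⁻¹ := by
  have hq0 : ∀ p : Idx N, q p η ≤ (p:ℝ)⁻¹ := fun p => q_le_inv p h
  have hqh : ∀ p : Idx N, q p η ≤ 1 / 2 := fun p => (hq0 p).trans (inv_le_half p)
  have hnorm : ∀ p : Idx N, ‖(q p η : ℂ) * z p‖ ≤ q p η := by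
    intro p
    rw [norm_mul, Complex.norm_real, Real.norm_of_nonneg (q_pos p η).le]
    calc q p η * ‖z p‖ ≤ q p η * 1 := by
          gcongr
          · exact (q_pos p η).le
          · exact hz p
      _ = _ := mul_one _
  have hlt : ∀ p : Idx N, ‖(q p η : ℂ) * z p‖ < 1 := fun p =>
    lt_of_le_of_lt ((hnorm p).trans (hqh p)) (by norm_num)
  -- absolute convergence
  have hsw : Summable (fun x : Ix N => w η x) := by
    rw [summable_prod_of_nonneg (fun x => (w_pos η x).le)]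
    have hfib : ∀ p : Idx N, HasSum (fun k : ℕ => w η (p, k)) (-Real.log (1 - q p η)) := by
      intro p
      have h1 := Real.hasSum_pow_div_log_of_abs_lt_one (x := q p η) (by
        rw [abs_of_pos (q_pos p η)]
        linarith [hqh p])
      exact h1
    refine ⟨fun p => (hfib p).summable, ?_⟩
    have h2 : ∀ p : Idx N, ∑' k : ℕ, w η (p, k) = -Real.log (1 - q p η) := fun p => (hfib p).tsum_eq
    simp_rw [h2]
    refine Summable.of_nonneg_of_le (fun p => ?_) (fun p => ?_) ((summable_q N h).mul_left 2)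
    · have h3 : Real.log (1 - q p η) ≤ 0 := by
        apply Real.log_nonpos
        · linarith [hqh p]
        · linarith [q_pos p η]
      linarith
    · have h3 := Real.one_sub_inv_le_log_of_pos (x := 1 - q p η) (by linarith [hqh p])
      have h4 : (1 - q p η)⁻¹ ≤ 1 + 2 * q p η := by
        rw [inv_le_iff_one_le_mul₀ (by linarith [hqh p])]
        nlinarith [hqh p, q_pos p η]
      linarith
  have hs : Summable (fun x : Ix N => (w η x : ℂ) * z x.1 ^ (x.2 + 1)) := by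
    refine Summable.of_norm_bounded hsw (fun x => ?_)
    rw [norm_mul, Complex.norm_real, Real.norm_of_nonneg (w_pos η x).le, norm_pow]
    calc w η x * ‖z x.1‖ ^ (x.2 + 1) ≤ w η x * 1 := by
          gcongr
          · exact (w_pos η x).le
          · exact pow_le_one₀ (norm_nonneg _) (hz x.1)
      _ = _ := mul_one _
  refine ⟨hs, ?_⟩
  have hfib : ∀ p : Idx N, HasSum (fun k : ℕ => (w η (p, k) : ℂ) * z p ^ (k + 1))
      (Complex.log ((1 - (q p η : ℂ) * z p)⁻¹)) := by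
    intro p
    refine (hasSum_log (hlt p)).congr_fun ?_
    intro k
    simp only [w]
    push_cast
    rw [mul_pow]
    ring
  have h1 := hs.hasSum.prod_fiberwise hfib
  have h2 : Summable fun p : Idx N => (q p η : ℂ) * z p :=
    Summable.of_norm_bounded (summable_q N h) hnorm
  rw [← h1.tsum_eq, ← h1.summable.tsum_sub h2]
  refine tsum_of_norm_bounded (summable_inv_sq N).hasSum (fun p => ?_)
  set u : ℂ := (q p η : ℂ) * z p with hu
  have h3 := Complex.norm_log_one_sub_inv_sub_self_le (z := u) (hlt p)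
  refine h3.trans ?_
  have h4 : ‖u‖ ≤ 1 / 2 := (hnorm p).trans (hqh p)
  have h5 : (1 - ‖u‖)⁻¹ ≤ 2 := by
    rw [inv_le_comm₀ (by linarith) (by norm_num)]
    linarith
  have h6 : ‖u‖ ^ 2 ≤ ((p:ℝ)^2)⁻¹ := by
    rw [← inv_pow]
    apply pow_le_pow_left₀ (norm_nonneg _) ((hnorm p).trans (hq0 p))
  have h7 : 0 ≤ (1 - ‖u‖)⁻¹ := by
    apply inv_nonneg.mpr; linarith
  nlinarith [sq_nonneg ‖u‖]

lemma ps_single (a : ℂ) (n : ℕ) : ps {a} n = a ^ n := by simp [ps]

/-- The primitive Dirichlet characters. -/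
theorem rs_prim (hN : 0 < N) :
    RS N (fun (ψ : {ψ : ℕ → ℂ // Prim ψ}) (p : ℕ) => ({ψ.1 p} : Multiset ℂ)) where
  small := by
    intro ψ p β hβ
    rw [Multiset.mem_singleton] at hβ
    subst hβ
    have h1 := ψ.2.norm_le_one p
    have h2 : (1:ℝ) < (p:ℝ) := by exact_mod_cast p.2.1.one_lt
    have h3 : ‖ψ.1 p‖ ^ 2 ≤ 1 := pow_le_one₀ (norm_nonneg _) h1
    linarith
  summ := by
    intro ψ η hη
    have h1 := (tsum_w (N := N) hη (fun p => ((‖ψ.1 p‖ ^ 2 : ℝ) : ℂ)) (fun p => by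
      rw [Complex.norm_real, Real.norm_of_nonneg (by positivity)]
      exact pow_le_one₀ (norm_nonneg _) (ψ.2.norm_le_one p))).1
    have h2 := (Complex.hasSum_re h1.hasSum).summable
    refine h2.congr (fun x => ?_)
    rw [Complex.re_ofReal_mul, ← Complex.ofReal_pow, Complex.ofReal_re, ps_single, norm_pow]
    ring
  diag := by
    intro ψ
    obtain ⟨C, hC⟩ := primeSum_zero N hN
    refine ⟨C + ∑' p : Idx N, ((p:ℝ)^2)⁻¹, fun η h0 h1 => ?_⟩
    have hz : ∀ p : Idx N, ‖((‖ψ.1 p‖ ^ 2 : ℝ) : ℂ)‖ ≤ 1 := by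
      intro p
      rw [Complex.norm_real, Real.norm_of_nonneg (by positivity)]
      exact pow_le_one₀ (norm_nonneg _) (ψ.2.norm_le_one p)
    obtain ⟨h2, h3⟩ := tsum_w (N := N) h0 (fun p => ((‖ψ.1 p‖ ^ 2 : ℝ) : ℂ)) hz
    have e1 : ∑' x : Ix N, w η x * ‖ps ({ψ.1 x.1} : Multiset ℂ) (x.2 + 1)‖ ^ 2 =
        (∑' x : Ix N, (w η x : ℂ) * ((‖ψ.1 x.1‖ ^ 2 : ℝ) : ℂ) ^ (x.2 + 1)).re := by
      rw [Complex.re_tsum h2]
      apply tsum_congr
      intro x
      rw [Complex.re_ofReal_mul, ← Complex.ofReal_pow, Complex.ofReal_re, ps_single, norm_pow]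
      ring
    have e2 : (∑' p : Idx N, (q p η : ℂ) * ((‖ψ.1 p‖ ^ 2 : ℝ) : ℂ)).re ≤ ∑' p : Idx N, q p η := by
      refine (Complex.re_le_norm _).trans ?_
      refine tsum_of_norm_bounded (summable_q N h0).hasSum (fun p => ?_)
      rw [norm_mul, Complex.norm_real, Real.norm_of_nonneg (q_pos p η).le]
      calc q p η * ‖((‖ψ.1 p‖ ^ 2 : ℝ) : ℂ)‖ ≤ q p η * 1 := by
            gcongr
            · exact (q_pos p η).le
            · exact hz p
        _ = _ := mul_one _
    have e3 : (∑' p : Idx N, (p:ℂ)^(-(1 + (η:ℂ)))).re = ∑' p : Idx N, q p η := by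
      rw [Complex.re_tsum (summable_cpow N (by simp; exact h0))]
      apply tsum_congr
      intro p
      have h4 := cpow_split p η 0
      rw [ch_zero, mul_one] at h4
      simp only [Complex.ofReal_zero, zero_mul, add_zero] at h4
      rw [h4, Complex.ofReal_re]
    have h4 := hC η h0 h1
    rw [e3, abs_le] at h4
    have h5 := (Complex.re_le_norm _).trans h3
    rw [Complex.sub_re] at h5
    rw [e1]
    linarith
  cross := by
    intro ψ φ t h
    have h' : ψ.1 ≠ φ.1 ∨ t ≠ 0 := by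
      rcases h with h | h
      · exact Or.inl (fun e => h (Subtype.ext e))
      · exact Or.inr h
    obtain ⟨C, hC⟩ := cross_ne N hN ψ.2 φ.2 h'
    refine ⟨C + ∑' p : Idx N, ((p:ℝ)^2)⁻¹, fun η h0 h1 => ?_⟩
    set z : Idx N → ℂ := fun p => ψ.1 p * (starRingEnd ℂ) (φ.1 p) * ch p t with hzdef
    have hz : ∀ p : Idx N, ‖z p‖ ≤ 1 := by
      intro p
      rw [hzdef]
      simp only
      rw [norm_mul, norm_mul, norm_ch, RCLike.norm_conj, mul_one]
      exact mul_le_one₀ (ψ.2.norm_le_one p) (norm_nonneg _) (φ.2.norm_le_one p)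
    obtain ⟨h2, h3⟩ := tsum_w (N := N) h0 z hz
    have e1 : ∑' x : Ix N, (w η x : ℂ) * (ps ({ψ.1 x.1} : Multiset ℂ) (x.2 + 1) *
        (starRingEnd ℂ) (ps ({φ.1 x.1} : Multiset ℂ) (x.2 + 1)) * ch x.1 t ^ (x.2 + 1)) =
        ∑' x : Ix N, (w η x : ℂ) * z x.1 ^ (x.2 + 1) := by
      apply tsum_congr
      intro x
      rw [ps_single, ps_single, map_pow, ← mul_pow, ← mul_pow]
    have e2 : ∑' p : Idx N, (q p η : ℂ) * z p =
        ∑' p : Idx N, ψ.1 p * (starRingEnd ℂ) (φ.1 p) * (p:ℂ)^(-(1 + (η:ℂ) + t * I)) := by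
      apply tsum_congr
      intro p
      rw [cpow_split p η t, hzdef]
      simp only
      ring
    have h4 := hC η h0 h1
    rw [← e2] at h4
    rw [e1]
    have h5 := (Complex.abs_re_le_norm _).trans h3
    rw [Complex.sub_re] at h5
    rw [abs_le] at h4 h5 ⊢
    constructor <;> linarith

end Pool.Agent.H41.ATW
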