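import Mathlib
import Pool.Agent.H91.Edge.TwOrd

open Complex Filter Topology

namespace Pool.Agent.H41.ATW.Mod

open Pool.Agent.H89.EdgeBasic Pool.Agent.H89.EdgeOrd Pool.H42.HW Pool.Agent.H91.EdgeTw

/-- The edge line `Re s = 1 + i/2` of the twists, by all Dirichlet characters of one modulus `m`, of
an Euler product of Hasse-Weil type of degree at most `b` and weight `i` (`m = 1` is allowed).

Growth, assuming no continuation: for all finite families of pairs `(χ, t)`, the matrix of the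
numbers `log |L(χ * χ'⁻¹; 1 + i/2 + h + (t - t') * I)|` has operator norm at most
`b * log (1/h) + C`.

Orders: if all the twists are meromorphic at all points of the line, they have there finite orders,
only finitely many of which are not zero, the sum of the squares of the orders is at most `b ^ 2`
and, more precisely, the order function on pairs (character, point) has Fourier transform bounded by
`b`: the sum of `ord * χ(a) * exp (u * Im s * I)` has absolute value at most `b` for all `a` prime to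
`m` and all real `u`. -/
theorem modulus (N i b : ℕ) (hN : 0 < N) (P : ℕ → Polynomial ℂ)
    (h0 : ∀ p : ℕ, p.Prime → ¬ p ∣ N → (P p).eval 0 = 1)
    (hdeg : ∀ p : ℕ, p.Prime → ¬ p ∣ N → (P p).natDegree ≤ b)
    (hroots : ∀ p : ℕ, p.Prime → ¬ p ∣ N → ∀ z : ℂ, (P p).IsRoot z →
      (p:ℝ) ^ (-(i:ℝ)/2) ≤ ‖z‖)
    (m : ℕ) (hm : 0 < m) (L : DirichletCharacter ℂ m → ℂ → ℂ)
    (hL : ∀ (χ : DirichletCharacter ℂ m) (s : ℂ), 1 + (i:ℝ)/2 < s.re →
      L χ s = ∏' p : {p : ℕ // p.Prime ∧ ¬ p ∣ N},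
        ((P p).eval (χ ((p:ℕ) : ZMod m) * (p:ℂ) ^ (-s)))⁻¹) :
    (∀ S S' : Finset (DirichletCharacter ℂ m × ℝ), ∃ C : ℝ, ∀ h : ℝ, 0 < h → h ≤ 1 →
      ∀ v w : DirichletCharacter ℂ m × ℝ → ℝ,
        |∑ x ∈ S, ∑ y ∈ S', v x * w y *
          Real.log ‖L (x.1 * y.1⁻¹) (1 + (i:ℂ)/2 + (h:ℂ) + ((x.2 - y.2 : ℝ):ℂ) * I)‖| ≤
        (b * Real.log (1/h) + C) *
          (Real.sqrt (∑ x ∈ S, v x ^ 2) * Real.sqrt (∑ y ∈ S', w y ^ 2))) ∧
    ((∀ (χ : DirichletCharacter ℂ m) (s : ℂ), s.re = 1 + (i:ℝ)/2 → MeromorphicAt (L χ) s) →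
      (∀ (χ : DirichletCharacter ℂ m) (s : ℂ), s.re = 1 + (i:ℝ)/2 →
        meromorphicOrderAt (L χ) s ≠ ⊤) ∧
      {x : DirichletCharacter ℂ m × ℂ |
        x.2.re = 1 + (i:ℝ)/2 ∧ meromorphicOrderAt (L x.1) x.2 ≠ 0}.Finite ∧
      ∑ᶠ x ∈ {x : DirichletCharacter ℂ m × ℂ | x.2.re = 1 + (i:ℝ)/2},
        (meromorphicOrderAt (L x.1) x.2).untop₀ ^ 2 ≤ (b:ℤ) ^ 2 ∧
      ∀ (a : (ZMod m)ˣ) (u : ℝ),
        ‖∑ᶠ x ∈ {x : DirichletCharacter ℂ m × ℂ | x.2.re = 1 + (i:ℝ)/2},
          ((meromorphicOrderAt (L x.1) x.2).untop₀ : ℂ) * x.1 a *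
            Complex.exp ((u * x.2.im : ℝ) * I)‖ ≤ b) := by
  classical
  have : NeZero m := ⟨hm.ne'⟩
  have H : Hyp N i b P := ⟨hN, h0, hdeg, hroots⟩
  have hval : ∀ (χ : DirichletCharacter ℂ m) (θ η : ℝ), 0 < η →
      L χ (1 + (i:ℂ)/2 + (η:ℂ) + ((θ : ℝ):ℂ) * I) =
      ∏' p : Idx N, ((P p).eval (χ ((p:ℕ) : ZMod m) *
        (p:ℂ)^(-(1 + (i:ℂ)/2 + (η:ℂ) + ((θ : ℝ):ℂ) * I))))⁻¹ := by
    intro χ θ η hη
    apply hL
    simp
    exact hη
  constructor
  · intro S S'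
    obtain ⟨C, hC⟩ := bilinearM H S S'
    refine ⟨C, fun h hh0 hh1 v w => ?_⟩
    have h1 := hC h hh0 hh1 v w
    have e : ∑ x ∈ S, ∑ y ∈ S', v x * w y *
          Real.log ‖L (x.1 * y.1⁻¹) (1 + (i:ℂ)/2 + (h:ℂ) + ((x.2 - y.2 : ℝ):ℂ) * I)‖ =
        ∑ x ∈ S, ∑ y ∈ S', v x * w y *
        Real.log ‖∏' p : Idx N, ((P p).eval ((x.1 * y.1⁻¹) ((p:ℕ) : ZMod m) *
          (p:ℂ)^(-(1 + (i:ℂ)/2 + (h:ℂ) + ((x.2 - y.2 : ℝ):ℂ) * I))))⁻¹‖ := by
      apply Finset.sum_congr rfl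
      intro x _
      apply Finset.sum_congr rfl
      intro y _
      rw [hval _ _ _ hh0]
    rw [e]
    exact h1
  intro hmero
  -- parametrization of the line
  set z : ℝ → ℂ := fun t => 1 + (i:ℂ)/2 + (t:ℂ) * I with hz
  have hzre : ∀ t, (z t).re = 1 + (i:ℝ)/2 := by
    intro t
    simp [hz]
  have hzim : ∀ t, (z t).im = t := by
    intro t
    simp [hz]
  have hzs : ∀ s : ℂ, s.re = 1 + (i:ℝ)/2 → s = z s.im := by
    intro s hs
    apply Complex.ext
    · rw [hzre, hs]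
    · rw [hzim]
  have hLz : ∀ (χ : DirichletCharacter ℂ m) (θ η : ℝ), 0 < η → L χ (z θ + η) =
      ∏' p : Idx N, ((P p).eval (χ ((p:ℕ) : ZMod m) *
        (p:ℂ)^(-(1 + (i:ℂ)/2 + (η:ℂ) + ((θ : ℝ):ℂ) * I))))⁻¹ := by
    intro χ θ η hη
    have e : z θ + η = 1 + (i:ℂ)/2 + (η:ℂ) + ((θ : ℝ):ℂ) * I := by
      simp only [hz]
      ring
    rw [e, hval χ θ η hη]
  have hLne : ∀ (χ : DirichletCharacter ℂ m) (θ η : ℝ), 0 < η → L χ (z θ + η) ≠ 0 := by
    intro χ θ η hη
    rw [hLz χ θ η hη]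
    have hre : 1 + (i:ℝ)/2 < (1 + (i:ℂ)/2 + (η:ℂ) + ((θ : ℝ):ℂ) * I).re := by
      simp
      exact hη
    have h1 := hasProd_L (hyp_tw H (ψ := fun n : ℕ => χ (n : ZMod m))
      (fun n => DirichletCharacter.norm_le_one _ _)) hre
    simp only [tw_eval] at h1
    rw [h1.tprod_eq]
    exact Complex.exp_ne_zero _
  have htop : ∀ (χ : DirichletCharacter ℂ m) (s : ℂ), s.re = 1 + (i:ℝ)/2 →
      meromorphicOrderAt (L χ) s ≠ ⊤ := by
    intro χ s hs htop
    rw [meromorphicOrderAt_eq_top_iff] at htop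
    have h1 := (tendsto_shift s).eventually htop
    obtain ⟨η, h3, h4⟩ := (h1.and self_mem_nhdsWithin).exists
    rw [hzs s hs] at h3
    exact hLne χ s.im η h4 h3
  -- orders as a function on the group
  set n : DirichletCharacter ℂ m → ℝ → ℝ := fun χ t =>
    ((meromorphicOrderAt (L χ) (z t)).untop₀ : ℝ) with hn
  have hrad : ∀ (χ : DirichletCharacter ℂ m) (θ : ℝ), Tendsto (fun η : ℝ =>
      Real.log ‖∏' p : Idx N, ((P p).eval (χ ((p:ℕ) : ZMod m) *
        (p:ℂ)^(-(1 + (i:ℂ)/2 + (η:ℂ) + ((θ : ℝ):ℂ) * I))))⁻¹‖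
        / Real.log (1/η)) (𝓝[>] 0) (𝓝 (-(n χ θ))) := by
    intro χ θ
    have h1 := radial (hmero χ (z θ) (hzre θ)) (htop χ (z θ) (hzre θ))
    refine h1.congr' ?_
    filter_upwards [self_mem_nhdsWithin] with η hη
    rw [hLz χ θ η hη]
  have hstar := starM H n hrad
  have hsq := sq_boundM n hstar
  -- finiteness
  have hfin : {x : DirichletCharacter ℂ m × ℝ | n x.1 x.2 ≠ 0}.Finite := by
    by_contra hinf
    obtain ⟨T, hT, hcard⟩ := (show Set.Infinite {x : DirichletCharacter ℂ m × ℝ | n x.1 x.2 ≠ 0}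
      from hinf).exists_subset_card_eq (b^2 + 1)
    have h1 := hsq T
    have h2 : (T.card : ℝ) ≤ ∑ x ∈ T, n x.1 x.2 ^ 2 := by
      rw [← nsmul_one, ← Finset.sum_const]
      apply Finset.sum_le_sum
      intro x hx
      have h3 : n x.1 x.2 ≠ 0 := hT hx
      have h4 : (meromorphicOrderAt (L x.1) (z x.2)).untop₀ ≠ 0 := by
        intro h
        apply h3
        simp only [hn]
        rw [h]
        simp
      have h5 : (1:ℤ) ≤ (meromorphicOrderAt (L x.1) (z x.2)).untop₀ ^ 2 := by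
        have := sq_nonneg ((meromorphicOrderAt (L x.1) (z x.2)).untop₀)
        rcases this.lt_or_eq with h | h
        · omega
        · exact absurd (pow_eq_zero_iff (two_ne_zero) |>.mp h.symm) h4
      simp only [hn]
      exact_mod_cast h5
    rw [hcard] at h2
    push_cast at h2
    linarith
  set Z := hfin.toFinset with hZ
  have hZmem : ∀ x, x ∉ Z → n x.1 x.2 = 0 := by
    intro x hx
    by_contra h
    exact hx (hfin.mem_toFinset.mpr h)
  -- transfer of finsums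
  set Φ : DirichletCharacter ℂ m × ℝ → DirichletCharacter ℂ m × ℂ := fun x => (x.1, z x.2) with hΦ
  have hΦinj : Function.Injective Φ := by
    intro x y h
    simp only [hΦ, Prod.mk.injEq] at h
    have h2 := congrArg Complex.im h.2
    rw [hzim, hzim] at h2
    exact Prod.ext h.1 h2
  have hset : {x : DirichletCharacter ℂ m × ℂ | x.2.re = 1 + (i:ℝ)/2} = Set.range Φ := by
    ext x
    constructor
    · intro hx
      exact ⟨(x.1, x.2.im), Prod.ext rfl (hzs x.2 hx).symm⟩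
    · rintro ⟨y, rfl⟩
      exact hzre y.2
  have huntop : ∀ x : DirichletCharacter ℂ m × ℝ, x ∉ Z →
      (meromorphicOrderAt (L x.1) (z x.2)).untop₀ = 0 := by
    intro x hx
    have h3 : ((meromorphicOrderAt (L x.1) (z x.2)).untop₀ : ℝ) = 0 := hZmem x hx
    exact_mod_cast h3
  have hfinC : {x : DirichletCharacter ℂ m × ℂ |
      x.2.re = 1 + (i:ℝ)/2 ∧ meromorphicOrderAt (L x.1) x.2 ≠ 0}.Finite := by
    refine (hfin.image Φ).subset ?_
    rintro x ⟨hx, hx0⟩
    refine ⟨(x.1, x.2.im), ?_, Prod.ext rfl (hzs x.2 hx).symm⟩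
    simp only [Set.mem_ofPred_eq, hn]
    rw [← hzs x.2 hx]
    intro h
    have h1 := htop x.1 x.2 hx
    have h2 : (meromorphicOrderAt (L x.1) x.2).untop₀ = 0 := by exact_mod_cast h
    rw [← WithTop.coe_untop₀_of_ne_top h1, h2] at hx0
    exact hx0 rfl
  refine ⟨htop, hfinC, ?_, ?_⟩
  · rw [hset, finsum_mem_range hΦinj]
    have h1 : (∑ᶠ x : DirichletCharacter ℂ m × ℝ, (meromorphicOrderAt (L (Φ x).1) (Φ x).2).untop₀ ^ 2) =
        ∑ x ∈ Z, (meromorphicOrderAt (L x.1) (z x.2)).untop₀ ^ 2 := by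
      apply finsum_eq_sum_of_support_subset
      intro x hx
      rw [Function.mem_support] at hx
      by_contra hmem
      apply hx
      have h2 := huntop x (fun h => hmem (Finset.mem_coe.mpr h))
      simp only [hΦ]
      rw [h2]
      norm_num
    rw [h1]
    have h2 := hsq Z
    have h3 : (((∑ x ∈ Z, (meromorphicOrderAt (L x.1) (z x.2)).untop₀ ^ 2 : ℤ)) : ℝ) ≤ (((b:ℤ)^2 : ℤ) : ℝ) := by
      push_cast
      exact h2
    exact_mod_cast h3
  · intro a u
    rw [hset, finsum_mem_range hΦinj]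
    set e : DirichletCharacter ℂ m × ℝ → ℂ := fun x => x.1 a * Complex.exp ((u * x.2 : ℝ) * I) with he
    have he1 : ∀ x, ‖e x‖ = 1 := by
      intro x
      simp only [he]
      rw [norm_mul, Complex.norm_exp_ofReal_mul_I, mul_one]
      exact DirichletCharacter.unit_norm_eq_one x.1 a
    have he2 : ∀ x y : DirichletCharacter ℂ m × ℝ,
        e (x.1 * y.1⁻¹, x.2 - y.2) = e x * (starRingEnd ℂ) (e y) := by
      intro x y
      simp only [he]
      rw [map_mul, ← Complex.exp_conj, MulChar.mul_apply]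
      have h1 : (y.1⁻¹) (a : ZMod m) = (starRingEnd ℂ) (y.1 (a : ZMod m)) := by
        rw [← MulChar.star_apply']
        rfl
      have h2 : Complex.exp ((u * (x.2 - y.2) : ℝ) * I) =
          Complex.exp ((u * x.2 : ℝ) * I) * Complex.exp ((starRingEnd ℂ) ((u * y.2 : ℝ) * I)) := by
        rw [← Complex.exp_add]
        congr 1
        rw [map_mul, Complex.conj_ofReal, Complex.conj_I]
        push_cast
        ring
      rw [h1, h2]
      ring
    have h1 : (∑ᶠ x : DirichletCharacter ℂ m × ℝ, ((meromorphicOrderAt (L (Φ x).1) (Φ x).2).untop₀ : ℂ) *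
        (Φ x).1 a * Complex.exp ((u * (Φ x).2.im : ℝ) * I)) =
        ∑ x ∈ Z, ((meromorphicOrderAt (L x.1) (z x.2)).untop₀ : ℂ) * x.1 a *
          Complex.exp ((u * (z x.2).im : ℝ) * I) := by
      apply finsum_eq_sum_of_support_subset
      intro x hx
      rw [Function.mem_support] at hx
      by_contra hmem
      apply hx
      have h2 := huntop x (fun h => hmem (Finset.mem_coe.mpr h))
      simp only [hΦ]
      rw [h2]
      simp
    rw [h1]
    set W := ∑ x ∈ Z, ((meromorphicOrderAt (L x.1) (z x.2)).untop₀ : ℂ) * x.1 a *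
          Complex.exp ((u * (z x.2).im : ℝ) * I) with hW
    have hphase : ∀ ω : ℂ, ‖ω‖ = 1 → (ω * W).re ≤ b := by
      intro ω hω
      have h2 := sup_boundM n hstar Z hZmem e he1 he2 ω hω
      have h3 : (ω * W).re = ∑ x ∈ Z, n x.1 x.2 * (ω * e x).re := by
        rw [hW, Finset.mul_sum, Complex.re_sum]
        apply Finset.sum_congr rfl
        intro x _
        have e2 : ((meromorphicOrderAt (L x.1) (z x.2)).untop₀ : ℂ) = ((n x.1 x.2 : ℝ) : ℂ) := by
          simp [hn]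
        rw [e2, hzim]
        have e3 : ω * (((n x.1 x.2 : ℝ) : ℂ) * x.1 a * Complex.exp ((u * x.2 : ℝ) * I)) =
            ((n x.1 x.2 : ℝ) : ℂ) * (ω * e x) := by
          simp only [he]
          ring
        rw [e3, Complex.re_ofReal_mul]
      rw [h3]
      exact h2
    obtain ⟨c, hc1, hc2⟩ := Complex.exists_norm_eq_mul_self W
    have h4 := hphase c hc1
    rw [← hc2, Complex.ofReal_re] at h4
    exact h4

end Pool.Agent.H41.ATW.Mod
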