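import Pool.Agent.H41.ATW.Main
import Pool.Agent.H41.ATW.Dir
import Pool.Agent.H41.ATW.Mod

/-! The twists by all primitive Dirichlet characters. -/

open Complex Filter Topology

namespace Pool.Agent.H41.ATW

open Pool.Agent.H89.EdgeBasic Pool.Agent.H89.EdgeOrd Pool.H42.HW

variable {N : ℕ}

/-! ### Conjugate families -/

lemma ps_conj (B : Multiset ℂ) (n : ℕ) :
    ps (B.map (starRingEnd ℂ)) n = (starRingEnd ℂ) (ps B n) := by
  rw [ps, ps, map_multiset_sum, Multiset.map_map, Multiset.map_map]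
  apply congrArg
  apply Multiset.map_congr rfl
  intro c _
  simp

lemma RS.conj {J : Type} {B : J → ℕ → Multiset ℂ} (hB : RS N B) :
    RS N (fun j p => (B j p).map (starRingEnd ℂ)) where
  small := by
    intro j p β hβ
    rw [Multiset.mem_map] at hβ
    obtain ⟨c, hc, rfl⟩ := hβ
    rw [RCLike.norm_conj]
    exact hB.small j p c hc
  summ := by
    intro j η hη
    simp_rw [ps_conj, RCLike.norm_conj]
    exact hB.summ j η hη
  diag := by
    intro j
    simp_rw [ps_conj, RCLike.norm_conj]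
    exact hB.diag j
  cross := by
    intro j k t h
    have h' : k ≠ j ∨ t ≠ 0 := by
      rcases h with h | h
      · exact Or.inl (Ne.symm h)
      · exact Or.inr h
    obtain ⟨C, hC⟩ := hB.cross k j t h'
    refine ⟨C, fun η h0 h1 => ?_⟩
    refine le_trans (le_of_eq ?_) (hC η h0 h1)
    congr 2
    apply tsum_congr
    intro x
    rw [ps_conj, ps_conj, Complex.conj_conj]
    ring

/-! ### Primitive characters and characters of one modulus -/

lemma eq_of_changeLevel {q₁ q₂ m : ℕ} [NeZero m] (h₁ : q₁ ∣ m) (h₂ : q₂ ∣ m)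
    (χ₁ : DirichletCharacter ℂ q₁) (χ₂ : DirichletCharacter ℂ q₂) (p₁ : χ₁.IsPrimitive)
    (p₂ : χ₂.IsPrimitive)
    (h : DirichletCharacter.changeLevel h₁ χ₁ = DirichletCharacter.changeLevel h₂ χ₂) :
    (fun n : ℕ => χ₁ n) = fun n : ℕ => χ₂ n := by
  have c1 : (DirichletCharacter.changeLevel h₁ χ₁).conductor = q₁ := by
    rw [DirichletCharacter.conductor_changeLevel]
    exact p₁
  have c2 : (DirichletCharacter.changeLevel h₂ χ₂).conductor = q₂ := by
    rw [DirichletCharacter.conductor_changeLevel]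
    exact p₂
  have c3 : q₁ = q₂ := by rw [← c1, ← c2, h]
  subst c3
  have c4 : χ₁ = χ₂ := DirichletCharacter.changeLevel_injective h₁ h
  rw [c4]

/-- the primitive character attached to a character of modulus `m` -/
noncomputable def pc {m : ℕ} [NeZero m] (χ : DirichletCharacter ℂ m) : {ψ : ℕ → ℂ // Prim ψ} :=
  ⟨fun n : ℕ => χ.primitiveCharacter n, χ.conductor, χ.primitiveCharacter, χ.conductor_ne_zero,
    χ.primitiveCharacter_isPrimitive, rfl⟩

lemma pc_apply {m : ℕ} [NeZero m] (χ : DirichletCharacter ℂ m) {n : ℕ} (hn : n.Coprime m) :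
    (pc χ).1 n = χ n := by
  have h := changeLevel_apply_nat χ.conductor_dvd_level χ.primitiveCharacter hn
  rw [DirichletCharacter.changeLevel_primitiveCharacter] at h
  exact h.symm

lemma pc_injective {m : ℕ} [NeZero m] : Function.Injective (pc : DirichletCharacter ℂ m → _) := by
  intro χ χ' h
  apply MulChar.ext
  intro a
  have h1 := pc_apply χ (n := (a : ZMod m).val) (ZMod.val_coe_unit_coprime a)
  have h2 := pc_apply χ' (n := (a : ZMod m).val) (ZMod.val_coe_unit_coprime a)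
  rw [ZMod.natCast_val, ZMod.cast_id] at h1 h2
  rw [← h1, ← h2, h]

lemma pc_surj {q m : ℕ} [NeZero m] (hq : q ∣ m) (χ : DirichletCharacter ℂ q)
    (hp : χ.IsPrimitive) : (pc (DirichletCharacter.changeLevel hq χ)).1 = fun n : ℕ => χ n := by
  apply eq_of_changeLevel (DirichletCharacter.conductor_dvd_level _) hq _ χ
    (DirichletCharacter.primitiveCharacter_isPrimitive _) hp
  exact DirichletCharacter.changeLevel_primitiveCharacter _

/-! ### The finite product of the missing factors -/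

lemma finite_dvd (N : ℕ) {m : ℕ} (hm : m ≠ 0) : {p : Idx N | (p:ℕ) ∣ m}.Finite := by
  apply Set.Finite.of_finite_image (f := fun p : Idx N => (p:ℕ))
  · refine (Nat.divisors m).finite_toSet.subset ?_
    rintro _ ⟨p, hp, rfl⟩
    simp only [Finset.mem_coe, Nat.mem_divisors]
    exact ⟨hp, hm⟩
  · intro p _ p' _ h
    exact Subtype.ext h

/-- A local factor does not vanish at points of absolute value less than `p ^ (-i/2)`. -/
lemma factor_ne {i b : ℕ} {P : ℕ → Polynomial ℂ} (H : Hyp N i b P) (p : Idx N) {a s : ℂ}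
    (ha : ‖a‖ ≤ 1) (hs : 1 + (i:ℝ)/2 ≤ s.re) : (P p).eval (a * (p:ℂ)^(-s)) ≠ 0 := by
  intro h
  have h1 := H.hroots p p.2.1 p.2.2 _ h
  have h2 : (1:ℝ) < (p:ℝ) := by exact_mod_cast p.2.1.one_lt
  rw [norm_mul, norm_cpow_neg] at h1
  have h3 : ‖a‖ * (p:ℝ)^(-s.re) ≤ (p:ℝ)^(-(1 + (i:ℝ)/2)) := by
    calc ‖a‖ * (p:ℝ)^(-s.re) ≤ 1 * (p:ℝ)^(-s.re) := by
          gcongr
      _ = (p:ℝ)^(-s.re) := one_mul _
      _ ≤ _ := Real.rpow_le_rpow_of_exponent_le h2.le (by linarith)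
  have h4 : (p:ℝ)^(-(1 + (i:ℝ)/2)) < (p:ℝ) ^ (-(i:ℝ)/2) :=
    Real.rpow_lt_rpow_of_exponent_lt h2 (by linarith)
  linarith

/-- the product of the factors at the primes dividing `m` -/
noncomputable def fp {N m : ℕ} (hm : m ≠ 0) (P : ℕ → Polynomial ℂ) (ψ : ℕ → ℂ) (s : ℂ) : ℂ :=
  ∏ p ∈ (finite_dvd N hm).toFinset, (P p).eval (ψ p * (p:ℂ)^(-s))

lemma fp_ne {m i b : ℕ} (hm : m ≠ 0) {P : ℕ → Polynomial ℂ} (H : Hyp N i b P) {ψ : ℕ → ℂ}
    (hψ : ∀ n, ‖ψ n‖ ≤ 1) {s : ℂ} (hs : 1 + (i:ℝ)/2 ≤ s.re) :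
    fp (N := N) hm P ψ s ≠ 0 := by
  rw [fp, Finset.prod_ne_zero_iff]
  intro p _
  exact factor_ne H p (hψ p) hs

lemma fp_analytic {m : ℕ} (hm : m ≠ 0) (P : ℕ → Polynomial ℂ) (ψ : ℕ → ℂ) (s : ℂ) :
    AnalyticAt ℂ (fun s => fp (N := N) hm P ψ s) s := by
  unfold fp
  apply Finset.analyticAt_fun_prod
  intro p _
  have h1 : AnalyticAt ℂ (fun s : ℂ => ψ p * ((p:ℕ):ℂ)^(-s)) s := by
    have h2 : (fun s : ℂ => ψ p * ((p:ℕ):ℂ)^(-s)) =
        fun s : ℂ => ψ p * Complex.exp (Complex.log ((p:ℕ):ℂ) * (-s)) := by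
      funext s
      rw [Complex.cpow_def_of_ne_zero (idx_ne p)]
    rw [h2]
    fun_prop
  have h3 : (fun s : ℂ => (P p).eval (ψ p * ((p:ℕ):ℂ)^(-s))) =
      fun s : ℂ => Polynomial.aeval (ψ p * ((p:ℕ):ℂ)^(-s)) (P p) := by
    funext s
    simp [Polynomial.aeval_def, Polynomial.eval₂_eq_eval_map]
  rw [h3]
  exact AnalyticAt.aeval_polynomial h1 (P p)

lemma euler_mod {m i b : ℕ} [NeZero m] {P : ℕ → Polynomial ℂ} (H : Hyp N i b P)
    (χ : DirichletCharacter ℂ m) {s : ℂ} (hs : 1 + (i:ℝ)/2 < s.re) :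
    (∏' p : Idx N, ((P p).eval ((pc χ).1 p * (p:ℂ)^(-s)))⁻¹) *
      fp (N := N) (NeZero.ne m) P (pc χ).1 s =
    ∏' p : Idx N, ((P p).eval (χ ((p:ℕ) : ZMod m) * (p:ℂ)^(-s)))⁻¹ := by
  classical
  have hψ : ∀ n, ‖(pc χ).1 n‖ ≤ 1 := (pc χ).2.norm_le_one
  have h1 := hasProd_L (hyp_tw H hψ) hs
  simp only [tw_eval] at h1
  set S := (finite_dvd N (NeZero.ne m)).toFinset with hS
  have hmem : ∀ p : Idx N, p ∈ S ↔ (p:ℕ) ∣ m := by
    intro p
    rw [hS, Set.Finite.mem_toFinset]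
    exact Iff.rfl
  set e : Idx N → ℂ := fun p => if p ∈ S then (P p).eval ((pc χ).1 p * (p:ℂ)^(-s)) else 1 with he
  have h2 : HasProd e (∏ p ∈ S, e p) := by
    apply hasProd_prod_of_ne_finset_one
    intro p hp
    rw [he]
    simp only
    rw [if_neg hp]
  have h3 : ∏ p ∈ S, e p = fp (N := N) (NeZero.ne m) P (pc χ).1 s := by
    rw [fp]
    apply Finset.prod_congr rfl
    intro p hp
    rw [he]
    simp only
    rw [if_pos hp]
  rw [h3] at h2
  have h4 := h1.mul h2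
  rw [h1.tprod_eq, ← h4.tprod_eq]
  apply tprod_congr
  intro p
  rw [he]
  simp only
  by_cases hp : (p:ℕ) ∣ m
  · rw [if_pos ((hmem p).mpr hp), inv_mul_cancel₀ (factor_ne H p (hψ p) hs.le)]
    have h5 : χ ((p:ℕ) : ZMod m) = 0 := by
      apply MulChar.map_nonunit
      rw [ZMod.isUnit_iff_coprime, p.2.1.coprime_iff_not_dvd, not_not]
      exact hp
    rw [h5, zero_mul, H.h0 p p.2.1 p.2.2, inv_one]
  · rw [if_neg (fun h => hp ((hmem p).mp h)), mul_one,
      pc_apply χ (p.2.1.coprime_iff_not_dvd.mpr hp)]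

end Pool.Agent.H41.ATW
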