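import Pool.Agent.H41.ATW.Basic

/-! The logarithm of the twisted Euler product as a sum over prime powers. -/

open Complex Filter Topology

namespace Pool.Agent.H41.ATW

open Pool.Agent.H89.EdgeBasic Pool.Agent.H89.EdgeOrd

/-- The product over the primes `p` not dividing `N` and over the `c = β * conj γ`, with `β` in `B p`
and `γ` in `C p`, of `P_p (c * p ^ (-s)) ^ (-1)`. -/
noncomputable def EP (N : ℕ) (P : ℕ → Polynomial ℂ) (B C : ℕ → Multiset ℂ) (s : ℂ) : ℂ :=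
  ∏' p : {p : ℕ // p.Prime ∧ ¬ p ∣ N},
    ((dp (B p) (C p)).map fun c => ((P p).eval (c * (p : ℂ) ^ (-s)))⁻¹).prod

lemma log_inv_one_sub {u : ℂ} (hu : ‖u‖ < 1) :
    Complex.log ((1 - u)⁻¹) = -Complex.log (1 - u) := by
  apply Complex.log_inv
  intro h4
  have h5 : (1 - u).re ≤ 0 := by
    rw [Complex.arg_eq_pi_iff] at h4
    exact h4.1.le
  have h6 := Complex.re_le_norm u
  simp only [Complex.sub_re, Complex.one_re] at h5
  linarith

lemma hasSum_log {u : ℂ} (hu : ‖u‖ < 1) :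
    HasSum (fun k : ℕ => u ^ (k + 1) / ((k : ℂ) + 1)) (Complex.log ((1 - u)⁻¹)) := by
  have h1 := Complex.hasSum_taylorSeries_neg_log hu
  rw [log_inv_one_sub hu]
  have h2 := (hasSum_nat_add_iff' 1).mpr h1
  simp only [Finset.range_one, Finset.sum_singleton, pow_zero, Nat.cast_zero, div_zero,
    sub_zero, Nat.cast_add, Nat.cast_one] at h2
  exact h2

lemma hasSum_ms {f : ℂ → ℕ → ℂ} {g : ℂ → ℂ} (A : Multiset ℂ) (h : ∀ a ∈ A, HasSum (f a) (g a)) :
    HasSum (fun n => (A.map fun a => f a n).sum) ((A.map g).sum) := by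
  induction A using Multiset.induction_on with
  | empty => simpa using (hasSum_zero : HasSum (fun _ : ℕ => (0 : ℂ)) 0)
  | cons a A ih =>
    simp only [Multiset.map_cons, Multiset.sum_cons]
    exact (h a (Multiset.mem_cons_self a A)).add (ih fun b hb => h b (Multiset.mem_cons_of_mem hb))

/-- the logarithm of the local factor -/
noncomputable def LL (P : Polynomial ℂ) (D : Multiset ℂ) (z : ℂ) : ℂ :=
  (D.map fun d => locLog P (d * z)).sum

lemma exp_LL (P : Polynomial ℂ) (h0 : P.eval 0 = 1) (D : Multiset ℂ) (z : ℂ)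
    (h : ∀ d ∈ D, ∀ r ∈ P.roots, ‖d * z / r‖ < 1) :
    Complex.exp (LL P D z) = (D.map fun d => (P.eval (d * z))⁻¹).prod := by
  rw [LL, Complex.exp_multiset_sum, Multiset.map_map]
  apply congrArg
  apply Multiset.map_congr rfl
  intro d hd
  exact exp_locLog P h0 (d * z) (h d hd)

lemma hasSum_LL (P : Polynomial ℂ) (D : Multiset ℂ) (c z : ℂ)
    (h : ∀ d ∈ D, ∀ r ∈ P.roots, ‖d * (c * z) / r‖ < 1) :
    HasSum (fun k : ℕ => z ^ (k + 1) / ((k : ℂ) + 1) * (ps (rt P c) (k + 1) * ps D (k + 1)))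
      (LL P D (c * z)) := by
  have h1 : HasSum (fun k : ℕ => (D.map fun d => ((P.roots.map fun r =>
      (d * (c * z) / r) ^ (k + 1) / ((k : ℂ) + 1)).sum)).sum) (LL P D (c * z)) := by
    refine hasSum_ms D (fun d hd => ?_)
    exact hasSum_ms P.roots (fun r hr => hasSum_log (h d hd r hr))
  refine h1.congr_fun ?_
  intro k
  rw [ps, ps, rt, Multiset.map_map, mul_comm (Multiset.sum _) (Multiset.sum _),
    ← Multiset.sum_map_mul_right, ← Multiset.sum_map_mul_left]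
  apply congrArg
  apply Multiset.map_congr rfl
  intro d _
  rw [← Multiset.sum_map_mul_left, ← Multiset.sum_map_mul_left]
  apply congrArg
  apply Multiset.map_congr rfl
  intro r _
  simp only [Function.comp]
  rw [div_eq_mul_inv (d * (c * z)) r, mul_pow, mul_pow, mul_pow, mul_pow]
  ring

variable {N : ℕ} {J : Type} {B : J → ℕ → Multiset ℂ}

lemma small_dp (hB : RS N B) (j k : J) (p : Idx N) {d : ℂ} (hd : d ∈ dp (B j p) (B k p)) :
    ‖d‖ < (p : ℝ) := by
  unfold dp at hd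
  rw [Multiset.mem_map] at hd
  obtain ⟨c, hc, rfl⟩ := hd
  rw [Multiset.mem_product] at hc
  have h1 := hB.small j p c.1 hc.1
  have h2 := hB.small k p c.2 hc.2
  rw [norm_mul, RCLike.norm_conj]
  nlinarith [sq_nonneg (‖c.1‖ - ‖c.2‖)]

lemma factor_lt {i b : ℕ} {P : ℕ → Polynomial ℂ} (H : Hyp N i b P) (hB : RS N B) (j k : J)
    (p : Idx N) {s : ℂ} (hs : 1 + (i:ℝ)/2 < s.re) {d : ℂ} (hd : d ∈ dp (B j p) (B k p)) {r : ℂ}
    (hr : r ∈ (P p).roots) : ‖d * (p:ℂ)^(-s) / r‖ < 1 := by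
  have h1 := root_bound H p hs hr
  have h2 := small_dp hB j k p hd
  have hp := idx_pos p
  rw [mul_div_assoc, norm_mul]
  calc ‖d‖ * ‖(p:ℂ)^(-s) / r‖ ≤ ‖d‖ * (p:ℝ)⁻¹ := by gcongr
    _ < (p:ℝ) * (p:ℝ)⁻¹ := by
        apply mul_lt_mul_of_pos_right h2
        positivity
    _ = 1 := mul_inv_cancel₀ hp.ne'

/-- The exact formula for the logarithm of the absolute value of the Euler product. -/
theorem log_EP {i b : ℕ} {P : ℕ → Polynomial ℂ} (H : Hyp N i b P) (hB : RS N B) (j k : J)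
    {η : ℝ} (h0 : 0 < η) (θ : ℝ) :
    EP N P (B j) (B k) (1 + (i:ℂ)/2 + (η:ℂ) + (θ:ℂ) * I) ≠ 0 ∧
    Real.log ‖EP N P (B j) (B k) (1 + (i:ℂ)/2 + (η:ℂ) + (θ:ℂ) * I)‖ =
      (∑' x : Ix N, (w η x : ℂ) * (aa P i x * (ps (B j x.1) (x.2 + 1) *
        (starRingEnd ℂ) (ps (B k x.1) (x.2 + 1)) * ch x.1 θ ^ (x.2 + 1)))).re := by
  set s : ℂ := 1 + (i:ℂ)/2 + (η:ℂ) + (θ:ℂ) * I with hsdef
  have hs : 1 + (i:ℝ)/2 < s.re := by
    rw [hsdef]
    simp
    exact h0
  set f : Ix N → ℂ := fun x => (w η x : ℂ) * (aa P i x * (ps (B j x.1) (x.2 + 1) *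
        (starRingEnd ℂ) (ps (B k x.1) (x.2 + 1)) * ch x.1 θ ^ (x.2 + 1))) with hf
  have hfs : Summable f := by
    have h1 : Summable fun x : Ix N => w η x * ‖aa P i x * (ps (B j x.1) (x.2 + 1) *
        ch x.1 θ ^ (x.2 + 1))‖ ^ 2 := by
      refine Summable.of_nonneg_of_le (fun x => by have := (w_pos η x).le; positivity)
        (fun x => ?_) ((hB.summ j η h0).mul_left ((b:ℝ) ^ 2))
      rw [norm_mul, norm_mul, norm_pow, norm_ch, one_pow, mul_one, mul_pow]
      have h3 : ‖aa P i x‖ ^ 2 ≤ (b:ℝ) ^ 2 := pow_le_pow_left₀ (norm_nonneg _) (aa_norm_le H x) 2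
      have h4 : 0 ≤ w η x * ‖ps (B j x.1) (x.2 + 1)‖ ^ 2 := by
        have := (w_pos η x).le
        positivity
      calc w η x * (‖aa P i x‖ ^ 2 * ‖ps (B j x.1) (x.2 + 1)‖ ^ 2)
          = ‖aa P i x‖ ^ 2 * (w η x * ‖ps (B j x.1) (x.2 + 1)‖ ^ 2) := by ring
        _ ≤ _ := mul_le_mul_of_nonneg_right h3 h4
    have h2 := summable_prod h1 (g := fun x => (starRingEnd ℂ) (ps (B k x.1) (x.2 + 1)))
      (by simpa only [RCLike.norm_conj] using hB.summ k η h0)
    refine h2.congr (fun x => ?_)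
    rw [hf]
    ring
  have hz : ∀ p : Idx N, (p:ℂ)^(-s) = (p:ℂ)^(-((i:ℂ)/2)) * ((q p η : ℂ) * ch p θ) :=
    fun p => cpow_split' p i η θ
  have hfib : ∀ p : Idx N, HasSum (fun k' : ℕ => f (p, k'))
      (LL (P p) (dp (B j p) (B k p)) ((p:ℂ)^(-s))) := by
    intro p
    have h1 := hasSum_LL (P p) (dp (B j p) (B k p)) ((p:ℂ)^(-((i:ℂ)/2))) ((q p η : ℂ) * ch p θ)
      (fun d hd r hr => by
        rw [← hz p]
        exact factor_lt H hB j k p hs hd hr)
    rw [← hz p] at h1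
    refine h1.congr_fun ?_
    intro k'
    rw [hf]
    simp only [w, aa, ps_dp]
    push_cast
    rw [mul_pow]
    ring
  have h1 := hfs.hasSum.prod_fiberwise hfib
  have h2 : HasProd (fun p : Idx N => ((dp (B j p) (B k p)).map fun c =>
      ((P p).eval (c * (p : ℂ) ^ (-s)))⁻¹).prod) (Complex.exp (∑' x, f x)) := by
    refine h1.cexp.congr ?_
    intro t
    apply Finset.prod_congr rfl
    intro p _
    simp only [Function.comp]
    exact exp_LL _ (H.h0 p p.2.1 p.2.2) _ _ (fun d hd r hr => factor_lt H hB j k p hs hd hr)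
  have h3 : EP N P (B j) (B k) s = Complex.exp (∑' x, f x) := h2.tprod_eq
  rw [h3]
  refine ⟨Complex.exp_ne_zero _, ?_⟩
  rw [Complex.norm_exp, Real.log_exp]

end Pool.Agent.H41.ATW
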