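import Pool.Agent.H41.ATW.Log

/-! The bilinear inequality and the orders on the edge. -/

open Complex Filter Topology

namespace Pool.Agent.H41.ATW

open Pool.Agent.H89.EdgeBasic Pool.Agent.H89.EdgeOrd

variable {N : ℕ} {J : Type} {B : J → ℕ → Multiset ℂ}

theorem bilinear {i b : ℕ} {P : ℕ → Polynomial ℂ} (H : Hyp N i b P) (hB : RS N B)
    (L : J → J → ℂ → ℂ)
    (hL : ∀ (j k : J) (s : ℂ), 1 + (i:ℝ)/2 < s.re → L j k s = EP N P (B j) (B k) s)
    (S S' : Finset (J × ℝ)) :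
    ∃ C : ℝ, ∀ h : ℝ, 0 < h → h ≤ 1 → ∀ v u : J × ℝ → ℝ,
      |∑ y ∈ S, ∑ z ∈ S', v y * u z *
        Real.log ‖L y.1 z.1 (1 + (i:ℂ)/2 + (h:ℂ) + ((y.2 - z.2 : ℝ):ℂ) * I)‖| ≤
      (b * Real.log (1/h) + C) *
        (Real.sqrt (∑ y ∈ S, v y ^ 2) * Real.sqrt (∑ z ∈ S', u z ^ 2)) := by
  obtain ⟨C, -, hC⟩ := bilW H hB S S'
  refine ⟨b * C, fun h h0 h1 v u => ?_⟩
  have h2 := hC h h0 h1 v u
  have e : ∀ y ∈ S, ∀ z ∈ S', v y * u z *
      Real.log ‖L y.1 z.1 (1 + (i:ℂ)/2 + (h:ℂ) + ((y.2 - z.2 : ℝ):ℂ) * I)‖ = v y * u z *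
      (∑' x : Ix N, (w h x : ℂ) * (aa P i x * (gv B y x * (starRingEnd ℂ) (gv B z x)))).re := by
    intro y _ z _
    rw [hL _ _ _ (by simp; exact h0), (log_EP H hB y.1 z.1 h0 (y.2 - z.2)).2]
    congr 3
    funext x
    rw [gv_mul]
  rw [Finset.sum_congr rfl (fun y hy => Finset.sum_congr rfl (fun z hz => e y hy z hz))]
  refine h2.trans (le_of_eq ?_)
  ring

/-- The orders: operator norm. -/
theorem orders {i b : ℕ} {P : ℕ → Polynomial ℂ} (H : Hyp N i b P) (hB : RS N B)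
    (L : J → J → ℂ → ℂ)
    (hL : ∀ (j k : J) (s : ℂ), 1 + (i:ℝ)/2 < s.re → L j k s = EP N P (B j) (B k) s)
    (S S' : Finset (J × ℝ))
    (hm : ∀ y ∈ S, ∀ z ∈ S',
      MeromorphicAt (L y.1 z.1) (1 + (i:ℂ)/2 + ((y.2 - z.2 : ℝ):ℂ) * I))
    (v u : J × ℝ → ℝ) :
    |∑ y ∈ S, ∑ z ∈ S', v y * u z * ((meromorphicOrderAt (L y.1 z.1)
      (1 + (i:ℂ)/2 + ((y.2 - z.2 : ℝ):ℂ) * I)).untop₀ : ℝ)| ≤
      b * (Real.sqrt (∑ y ∈ S, v y ^ 2) * Real.sqrt (∑ z ∈ S', u z ^ 2)) := by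
  obtain ⟨C, hC⟩ := bilinear H hB L hL S S'
  set D := Real.sqrt (∑ y ∈ S, v y ^ 2) * Real.sqrt (∑ z ∈ S', u z ^ 2) with hD
  have htop : ∀ y ∈ S, ∀ z ∈ S', meromorphicOrderAt (L y.1 z.1)
      (1 + (i:ℂ)/2 + ((y.2 - z.2 : ℝ):ℂ) * I) ≠ ⊤ := by
    intro y _ z _ htop
    rw [meromorphicOrderAt_eq_top_iff] at htop
    have h1 := (tendsto_shift _).eventually htop
    obtain ⟨η, h3, h4⟩ := (h1.and self_mem_nhdsWithin).exists
    have hη : 0 < η := h4
    have e1 : (1 + (i:ℂ)/2 + ((y.2 - z.2 : ℝ):ℂ) * I) + (η : ℂ) =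
        1 + (i:ℂ)/2 + (η:ℂ) + ((y.2 - z.2 : ℝ):ℂ) * I := by ring
    rw [e1, hL _ _ _ (by simp; exact hη)] at h3
    exact (log_EP H hB y.1 z.1 hη (y.2 - z.2)).1 h3
  have h1 : Tendsto (fun η : ℝ => |∑ y ∈ S, ∑ z ∈ S', v y * u z *
      (Real.log ‖L y.1 z.1 ((1 + (i:ℂ)/2 + ((y.2 - z.2 : ℝ):ℂ) * I) + (η:ℂ))‖
        / Real.log (1/η))|) (𝓝[>] 0) (𝓝 |∑ y ∈ S, ∑ z ∈ S', v y * u z *
        (-((meromorphicOrderAt (L y.1 z.1)
      (1 + (i:ℂ)/2 + ((y.2 - z.2 : ℝ):ℂ) * I)).untop₀ : ℝ))|) := by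
    apply Tendsto.abs
    apply tendsto_finsetSum
    intro y hy
    apply tendsto_finsetSum
    intro z hz
    exact (radial (hm y hy z hz) (htop y hy z hz)).const_mul _
  have h2 : Tendsto (fun η : ℝ => ((b:ℝ) + C / Real.log (1/η)) * D) (𝓝[>] 0)
      (𝓝 (((b:ℝ) + 0) * D)) := by
    apply Tendsto.mul_const
    apply Tendsto.add tendsto_const_nhds
    exact tendsto_const_nhds.div_atTop tendsto_log_inv
  have hlt : ∀ᶠ η : ℝ in 𝓝[>] 0, η < 1 := by
    have : ∀ᶠ η : ℝ in 𝓝 0, η < 1 := gt_mem_nhds one_pos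
    exact nhdsWithin_le_nhds this
  have h3 := le_of_tendsto_of_tendsto h1 h2 (by
    filter_upwards [self_mem_nhdsWithin, hlt] with η h3 h4
    have hη : 0 < η := h3
    have hlog : 0 < Real.log (1/η) := by
      apply Real.log_pos
      rw [lt_div_iff₀ hη]
      linarith
    have h5 := hC η hη h4.le v u
    have e : ∑ y ∈ S, ∑ z ∈ S', v y * u z *
      (Real.log ‖L y.1 z.1 ((1 + (i:ℂ)/2 + ((y.2 - z.2 : ℝ):ℂ) * I) + (η:ℂ))‖
        / Real.log (1/η)) = (∑ y ∈ S, ∑ z ∈ S', v y * u z *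
        Real.log ‖L y.1 z.1 (1 + (i:ℂ)/2 + (η:ℂ) + ((y.2 - z.2 : ℝ):ℂ) * I)‖)
        / Real.log (1/η) := by
      rw [Finset.sum_div]
      apply Finset.sum_congr rfl
      intro y _
      rw [Finset.sum_div]
      apply Finset.sum_congr rfl
      intro z _
      have e1 : (1 + (i:ℂ)/2 + ((y.2 - z.2 : ℝ):ℂ) * I) + (η : ℂ) =
        1 + (i:ℂ)/2 + (η:ℂ) + ((y.2 - z.2 : ℝ):ℂ) * I := by ring
      rw [e1]
      ring
    rw [e, abs_div, abs_of_pos hlog, div_le_iff₀ hlog]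
    have e3 : ((b:ℝ) + C / Real.log (1/η)) * D * Real.log (1/η) =
        (b * Real.log (1/η) + C) * D := by
      rw [add_mul, add_mul, add_mul, div_mul_eq_mul_div, div_mul_cancel₀ _ hlog.ne']
      ring
    rw [e3]
    exact h5)
  rw [add_zero] at h3
  have e2 : ∑ y ∈ S, ∑ z ∈ S', v y * u z * (-((meromorphicOrderAt (L y.1 z.1)
      (1 + (i:ℂ)/2 + ((y.2 - z.2 : ℝ):ℂ) * I)).untop₀ : ℝ)) =
      -∑ y ∈ S, ∑ z ∈ S', v y * u z * ((meromorphicOrderAt (L y.1 z.1)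
      (1 + (i:ℂ)/2 + ((y.2 - z.2 : ℝ):ℂ) * I)).untop₀ : ℝ) := by
    rw [← Finset.sum_neg_distrib]
    apply Finset.sum_congr rfl
    intro x _
    rw [← Finset.sum_neg_distrib]
    apply Finset.sum_congr rfl
    intro y _
    ring
  rwa [e2, abs_neg] at h3

/-- All orders of the twists of one member. -/
theorem orders_sq {i b : ℕ} {P : ℕ → Polynomial ℂ} (H : Hyp N i b P) (hB : RS N B)
    (L : J → J → ℂ → ℂ)
    (hL : ∀ (j k : J) (s : ℂ), 1 + (i:ℝ)/2 < s.re → L j k s = EP N P (B j) (B k) s)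
    (j : J) (hm : ∀ (k : J) (s : ℂ), s.re = 1 + (i:ℝ)/2 → MeromorphicAt (L j k) s) :
    (∀ (k : J) (s : ℂ), s.re = 1 + (i:ℝ)/2 → meromorphicOrderAt (L j k) s ≠ ⊤) ∧
    {x : J × ℂ | x.2.re = 1 + (i:ℝ)/2 ∧ meromorphicOrderAt (L j x.1) x.2 ≠ 0}.Finite ∧
    ∑ᶠ x ∈ {x : J × ℂ | x.2.re = 1 + (i:ℝ)/2},
      (meromorphicOrderAt (L j x.1) x.2).untop₀ ^ 2 ≤ (b:ℤ) ^ 2 := by
  classical
  set z : ℝ → ℂ := fun t => 1 + (i:ℂ)/2 + (t:ℂ) * I with hz
  have hzre : ∀ t, (z t).re = 1 + (i:ℝ)/2 := by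
    intro t
    simp [hz]
  have hzim : ∀ t, (z t).im = t := by
    intro t
    simp [hz]
  have hzs : ∀ s : ℂ, s.re = 1 + (i:ℝ)/2 → s = z s.im := by
    intro s hs
    apply Complex.ext
    · rw [hzre, hs]
    · rw [hzim]
  have htop : ∀ (k : J) (s : ℂ), s.re = 1 + (i:ℝ)/2 → meromorphicOrderAt (L j k) s ≠ ⊤ := by
    intro k s hs htop
    rw [meromorphicOrderAt_eq_top_iff] at htop
    have h1 := (tendsto_shift s).eventually htop
    obtain ⟨η, h3, h4⟩ := (h1.and self_mem_nhdsWithin).exists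
    have hη : 0 < η := h4
    have e1 : s + (η : ℂ) = 1 + (i:ℂ)/2 + (η:ℂ) + ((s.im : ℝ):ℂ) * I := by
      conv_lhs => rw [hzs s hs]
      simp only [hz]
      ring
    rw [e1, hL _ _ _ (by simp; exact hη)] at h3
    exact (log_EP H hB j k hη s.im).1 h3
  refine ⟨htop, ?_⟩
  set n : J × ℝ → ℝ := fun x => ((meromorphicOrderAt (L j x.1) (z x.2)).untop₀ : ℝ) with hn
  have hsq : ∀ T : Finset (J × ℝ), ∑ x ∈ T, n x ^ 2 ≤ (b:ℝ) ^ 2 := by
    intro T
    set T' : Finset (J × ℝ) := T.image (fun x => (x.1, -x.2)) with hT'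
    have hinj : Set.InjOn (fun x : J × ℝ => (x.1, -x.2)) T := by
      intro a _ c _ h
      simp only [Prod.mk.injEq, neg_inj] at h
      exact Prod.ext h.1 h.2
    have h := orders H hB L hL {(j, 0)} T' (by
      intro y hy x _
      rw [Finset.mem_singleton] at hy
      subst hy
      apply hm
      simp) (fun _ => 1) (fun x => n (x.1, -x.2))
    simp only [Finset.sum_singleton, one_mul, one_pow, Real.sqrt_one] at h
    have e1 : ∑ x ∈ T', n (x.1, -x.2) * ((meromorphicOrderAt (L j x.1)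
        (1 + (i:ℂ)/2 + ((0 - x.2 : ℝ):ℂ) * I)).untop₀ : ℝ) = ∑ x ∈ T, n x ^ 2 := by
      rw [hT', Finset.sum_image hinj]
      apply Finset.sum_congr rfl
      intro x _
      simp only [neg_neg, zero_sub, hn, hz]
      ring
    have e2 : ∑ x ∈ T', n (x.1, -x.2) ^ 2 = ∑ x ∈ T, n x ^ 2 := by
      rw [hT', Finset.sum_image hinj]
      apply Finset.sum_congr rfl
      intro x _
      simp only [neg_neg]
    rw [e1, e2, abs_of_nonneg (Finset.sum_nonneg fun _ _ => sq_nonneg _)] at h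
    set A := ∑ x ∈ T, n x ^ 2 with hA
    have hA0 : 0 ≤ A := Finset.sum_nonneg fun _ _ => sq_nonneg _
    have h2 : Real.sqrt A * Real.sqrt A = A := Real.mul_self_sqrt hA0
    have h3 : Real.sqrt A ≤ b := by
      by_contra hcon
      push Not at hcon
      have h4 : 0 < Real.sqrt A := lt_of_le_of_lt (Nat.cast_nonneg _) hcon
      nlinarith
    calc A = Real.sqrt A * Real.sqrt A := h2.symm
      _ ≤ b * b := mul_le_mul h3 h3 (Real.sqrt_nonneg _) (Nat.cast_nonneg _)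
      _ = (b:ℝ)^2 := by ring
  -- finiteness
  have hfin : {x : J × ℝ | n x ≠ 0}.Finite := by
    by_contra hinf
    obtain ⟨T, hT, hcard⟩ := (show Set.Infinite {x : J × ℝ | n x ≠ 0}
      from hinf).exists_subset_card_eq (b^2 + 1)
    have h1 := hsq T
    have h2 : (T.card : ℝ) ≤ ∑ x ∈ T, n x ^ 2 := by
      rw [← nsmul_one, ← Finset.sum_const]
      apply Finset.sum_le_sum
      intro x hx
      have h3 : n x ≠ 0 := hT hx
      have h4 : (meromorphicOrderAt (L j x.1) (z x.2)).untop₀ ≠ 0 := by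
        intro h
        apply h3
        simp only [hn]
        rw [h]
        simp
      have h5 : (1:ℤ) ≤ (meromorphicOrderAt (L j x.1) (z x.2)).untop₀ ^ 2 := by
        have := sq_nonneg ((meromorphicOrderAt (L j x.1) (z x.2)).untop₀)
        rcases this.lt_or_eq with h | h
        · omega
        · exact absurd (pow_eq_zero_iff (two_ne_zero) |>.mp h.symm) h4
      simp only [hn]
      exact_mod_cast h5
    rw [hcard] at h2
    push_cast at h2
    linarith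
  set Z := hfin.toFinset with hZ
  have hZmem : ∀ x, x ∉ Z → n x = 0 := by
    intro x hx
    by_contra h
    exact hx (hfin.mem_toFinset.mpr h)
  set Φ : J × ℝ → J × ℂ := fun x => (x.1, z x.2) with hΦ
  have hΦinj : Function.Injective Φ := by
    intro x y h
    simp only [hΦ, Prod.mk.injEq] at h
    have h2 := congrArg Complex.im h.2
    rw [hzim, hzim] at h2
    exact Prod.ext h.1 h2
  have hset : {x : J × ℂ | x.2.re = 1 + (i:ℝ)/2} = Set.range Φ := by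
    ext x
    constructor
    · intro hx
      exact ⟨(x.1, x.2.im), Prod.ext rfl (hzs x.2 hx).symm⟩
    · rintro ⟨y, rfl⟩
      exact hzre y.2
  have huntop : ∀ x : J × ℝ, x ∉ Z → (meromorphicOrderAt (L j x.1) (z x.2)).untop₀ = 0 := by
    intro x hx
    have h3 : ((meromorphicOrderAt (L j x.1) (z x.2)).untop₀ : ℝ) = 0 := hZmem x hx
    exact_mod_cast h3
  have hfinC : {x : J × ℂ |
      x.2.re = 1 + (i:ℝ)/2 ∧ meromorphicOrderAt (L j x.1) x.2 ≠ 0}.Finite := by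
    refine (hfin.image Φ).subset ?_
    rintro x ⟨hx, hx0⟩
    refine ⟨(x.1, x.2.im), ?_, Prod.ext rfl (hzs x.2 hx).symm⟩
    simp only [Set.mem_ofPred_eq, hn]
    rw [← hzs x.2 hx]
    intro h
    have h1 := htop x.1 x.2 hx
    have h2 : (meromorphicOrderAt (L j x.1) x.2).untop₀ = 0 := by exact_mod_cast h
    rw [← WithTop.coe_untop₀_of_ne_top h1, h2] at hx0
    exact hx0 rfl
  refine ⟨hfinC, ?_⟩
  rw [hset, finsum_mem_range hΦinj]
  have h1 : (∑ᶠ x : J × ℝ, (meromorphicOrderAt (L j (Φ x).1) (Φ x).2).untop₀ ^ 2) =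
      ∑ x ∈ Z, (meromorphicOrderAt (L j x.1) (z x.2)).untop₀ ^ 2 := by
    apply finsum_eq_sum_of_support_subset
    intro x hx
    rw [Function.mem_support] at hx
    by_contra hmem
    apply hx
    have h2 := huntop x (fun h => hmem (Finset.mem_coe.mpr h))
    simp only [hΦ]
    rw [h2]
    norm_num
  rw [h1]
  have h2 := hsq Z
  have h3 : (((∑ x ∈ Z, (meromorphicOrderAt (L j x.1) (z x.2)).untop₀ ^ 2 : ℤ)) : ℝ) ≤
      (((b:ℤ)^2 : ℤ) : ℝ) := by
    push_cast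
    exact h2
  exact_mod_cast h3

end Pool.Agent.H41.ATW
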