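import Pool.Agent.H41.ATW.Fin

/-! The twists by all primitive Dirichlet characters: the orders on the edge. -/

open Complex Filter Topology

namespace Pool.Agent.H41.ATW

open Pool.Agent.H89.EdgeBasic Pool.Agent.H89.EdgeOrd Pool.H42.HW

variable {N : ℕ}

/-- the trivial character -/
noncomputable def pone : {ψ : ℕ → ℂ // Prim ψ} :=
  ⟨fun _ => 1, 1, 1, one_ne_zero, by
    rw [DirichletCharacter.isPrimitive_def]
    exact DirichletCharacter.conductor_one, by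
    funext n
    rw [Subsingleton.elim ((n : ℕ) : ZMod 1) 1, MulChar.map_one]⟩

theorem prim_sq {i b : ℕ} {P : ℕ → Polynomial ℂ} (H : Hyp N i b P)
    (L : {ψ : ℕ → ℂ // Prim ψ} → ℂ → ℂ)
    (hL : ∀ (ψ : {ψ : ℕ → ℂ // Prim ψ}) (s : ℂ), 1 + (i:ℝ)/2 < s.re →
      L ψ s = ∏' p : {p : ℕ // p.Prime ∧ ¬ p ∣ N}, ((P p).eval (ψ.1 p * (p:ℂ) ^ (-s)))⁻¹)
    (hm : ∀ (ψ : {ψ : ℕ → ℂ // Prim ψ}) (s : ℂ), s.re = 1 + (i:ℝ)/2 → MeromorphicAt (L ψ) s) :
    (∀ (ψ : {ψ : ℕ → ℂ // Prim ψ}) (s : ℂ), s.re = 1 + (i:ℝ)/2 →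
      meromorphicOrderAt (L ψ) s ≠ ⊤) ∧
    {x : {ψ : ℕ → ℂ // Prim ψ} × ℂ |
      x.2.re = 1 + (i:ℝ)/2 ∧ meromorphicOrderAt (L x.1) x.2 ≠ 0}.Finite ∧
    ∑ᶠ x ∈ {x : {ψ : ℕ → ℂ // Prim ψ} × ℂ | x.2.re = 1 + (i:ℝ)/2},
      (meromorphicOrderAt (L x.1) x.2).untop₀ ^ 2 ≤ (b:ℤ) ^ 2 := by
  classical
  set B : {ψ : ℕ → ℂ // Prim ψ} → ℕ → Multiset ℂ := fun ψ p =>
    ({ψ.1 p} : Multiset ℂ).map (starRingEnd ℂ) with hB
  have hRS : RS N B := (rs_prim H.N0).conj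
  set L' : {ψ : ℕ → ℂ // Prim ψ} → {ψ : ℕ → ℂ // Prim ψ} → ℂ → ℂ := fun j k =>
    if j = pone then L k else EP N P (B j) (B k) with hL'
  have h1 : ∀ (j k : {ψ : ℕ → ℂ // Prim ψ}) (s : ℂ), 1 + (i:ℝ)/2 < s.re →
      L' j k s = EP N P (B j) (B k) s := by
    intro j k s hs
    rw [hL']
    simp only
    by_cases hj : j = pone
    · rw [if_pos hj, hL k s hs, EP]
      apply tprod_congr
      intro p
      subst hj
      simp [hB, dp, pone]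
    · rw [if_neg hj]
  have h2 := orders_sq H hRS L' h1 pone (by
    intro k s hs
    rw [hL']
    simp only [if_true]
    exact hm k s hs)
  simpa only [hL', if_true] using h2

theorem prim_fourier {i b : ℕ} {P : ℕ → Polynomial ℂ} (H : Hyp N i b P)
    (L : {ψ : ℕ → ℂ // Prim ψ} → ℂ → ℂ)
    (hL : ∀ (ψ : {ψ : ℕ → ℂ // Prim ψ}) (s : ℂ), 1 + (i:ℝ)/2 < s.re →
      L ψ s = ∏' p : {p : ℕ // p.Prime ∧ ¬ p ∣ N}, ((P p).eval (ψ.1 p * (p:ℂ) ^ (-s)))⁻¹)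
    (hm : ∀ (ψ : {ψ : ℕ → ℂ // Prim ψ}) (s : ℂ), s.re = 1 + (i:ℝ)/2 → MeromorphicAt (L ψ) s)
    (a : ℕ) (u : ℝ) :
    ‖∑ᶠ x ∈ {x : {ψ : ℕ → ℂ // Prim ψ} × ℂ | x.2.re = 1 + (i:ℝ)/2},
      ((meromorphicOrderAt (L x.1) x.2).untop₀ : ℂ) * x.1.1 a *
        Complex.exp ((u * x.2.im : ℝ) * I)‖ ≤ b := by
  classical
  obtain ⟨-, hfin, -⟩ := prim_sq H L hL hm
  -- the modulus
  choose q χ hq0 hprim hψ using fun ψ : {ψ : ℕ → ℂ // Prim ψ} => ψ.2
  set Za := hfin.toFinset.filter (fun x => x.1.1 a ≠ 0) with hZa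
  set m : ℕ := ∏ x ∈ Za, q x.1 with hmdef
  have hm0 : m ≠ 0 := by
    rw [hmdef, Finset.prod_ne_zero_iff]
    intro x _
    exact hq0 x.1
  have : NeZero m := ⟨hm0⟩
  have hcop : a.Coprime m := by
    rw [hmdef]
    apply Nat.Coprime.prod_right
    intro x hx
    rw [hZa, Finset.mem_filter] at hx
    by_contra hcon
    apply hx.2
    rw [hψ x.1]
    apply MulChar.map_nonunit
    rw [ZMod.isUnit_iff_coprime]
    exact hcon
  -- the functions modulo `m`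
  set L' : DirichletCharacter ℂ m → ℂ → ℂ := fun χ s =>
    fp (N := N) hm0 P (pc χ).1 s * L (pc χ) s with hL'
  have hord : ∀ (χ : DirichletCharacter ℂ m) (s : ℂ), s.re = 1 + (i:ℝ)/2 →
      meromorphicOrderAt (L' χ) s = meromorphicOrderAt (L (pc χ)) s := by
    intro χ s hs
    have h1 : L' χ = (fun s => fp (N := N) hm0 P (pc χ).1 s) * L (pc χ) := rfl
    rw [h1]
    exact meromorphicOrderAt_mul_of_ne_zero (fp_analytic hm0 P (pc χ).1 s)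
      (fp_ne hm0 H (pc χ).2.norm_le_one hs.ge)
  have hmain := (Mod.modulus N i b H.N0 P H.h0 H.hdeg H.hroots m (Nat.pos_of_ne_zero hm0) L' (by
    intro χ s hs
    rw [← euler_mod H χ hs, hL']
    simp only
    rw [hL (pc χ) s hs, mul_comm])).2 (by
    intro χ s hs
    rw [hL']
    exact ((fp_analytic hm0 P (pc χ).1 s).meromorphicAt).mul (hm (pc χ) s hs))
  have h4 := hmain.2.2.2 (ZMod.unitOfCoprime a hcop) u
  rw [ZMod.coe_unitOfCoprime] at h4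
  refine le_trans (le_of_eq ?_) h4
  congr 1
  -- transfer
  set Φ : DirichletCharacter ℂ m × ℂ → {ψ : ℕ → ℂ // Prim ψ} × ℂ := fun x => (pc x.1, x.2) with hΦ
  have hΦinj : Function.Injective Φ := by
    intro x y h
    simp only [hΦ, Prod.mk.injEq] at h
    exact Prod.ext (pc_injective h.1) h.2
  set G : {ψ : ℕ → ℂ // Prim ψ} × ℂ → ℂ := fun x =>
    ((meromorphicOrderAt (L x.1) x.2).untop₀ : ℂ) * x.1.1 a *
        Complex.exp ((u * x.2.im : ℝ) * I) with hG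
  have e1 : (∑ᶠ x ∈ {x : DirichletCharacter ℂ m × ℂ | x.2.re = 1 + (i:ℝ)/2},
      ((meromorphicOrderAt (L' x.1) x.2).untop₀ : ℂ) * x.1 (a : ZMod m) *
        Complex.exp ((u * x.2.im : ℝ) * I)) =
      ∑ᶠ x ∈ {x : DirichletCharacter ℂ m × ℂ | x.2.re = 1 + (i:ℝ)/2}, G (Φ x) := by
    apply finsum_mem_congr rfl
    intro x hx
    rw [hG, hΦ]
    simp only
    rw [hord x.1 x.2 hx, pc_apply x.1 hcop]
  rw [e1, ← finsum_mem_image hΦinj.injOn]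
  apply finsum_mem_inter_support_eq
  ext x
  simp only [Set.mem_inter_iff, Function.mem_support]
  constructor
  · rintro ⟨h1, h2⟩
    refine ⟨?_, h2⟩
    have h3 : x ∈ Za := by
      rw [hZa, Finset.mem_filter, Set.Finite.mem_toFinset]
      refine ⟨⟨h1, ?_⟩, ?_⟩
      · intro h
        apply h2
        simp [h]
      · intro h
        apply h2
        simp [h]
    have h5 : q x.1 ∣ m := by
      rw [hmdef]
      exact Finset.dvd_prod_of_mem (fun x : {ψ : ℕ → ℂ // Prim ψ} × ℂ => q x.1) h3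
    refine ⟨(DirichletCharacter.changeLevel h5 (χ x.1), x.2), h1, ?_⟩
    rw [hΦ]
    simp only
    refine Prod.ext (Subtype.ext ?_) rfl
    simp only
    rw [pc_surj h5 (χ x.1) (hprim x.1)]
    exact (hψ x.1).symm
  · rintro ⟨⟨y, hy, rfl⟩, h2⟩
    exact ⟨hy, h2⟩

end Pool.Agent.H41.ATW
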